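import Pool.Agent.helper15.P2.SpecI

set_option autoImplicit false

open scoped ContDiff Topology ComplexConjugate
open MeasureTheory Filter Set Metric

namespace Pool.Agent.P2I

open Pool.Agent.P2

/-! ### Calculus -/

theorem IS3_integrable (Ω : Set ℂ) (u h : ℂ → ℝ)
    (hu : ContinuousOn u Ω) (hc : HasCompactSupport u) (hs : tsupport u ⊆ Ω) (hh : ContinuousOn h Ω) :
    Integrable (fun x => u x * h x) := by
  have hK : IsCompact (tsupport u) := hc
  have h1 : IntegrableOn (fun x => u x * h x) (tsupport u) :=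
    ((hu.mono hs).mul (hh.mono hs)).integrableOn_compact hK
  refine (integrableOn_iff_integrable_of_support_subset ?_).1 h1
  intro x hx
  apply subset_tsupport
  intro h0
  apply hx
  show u x * h x = 0
  rw [h0, zero_mul]

theorem IS3_lapf (g : ℂ → ℝ) (z : ℂ) : lap g z = (1 / 4) * (fderiv ℝ (fderiv ℝ g) z 1 1 +
    fderiv ℝ (fderiv ℝ g) z Complex.I Complex.I) := by
  unfold lap
  rw [iteratedFDeriv_two_apply, iteratedFDeriv_two_apply]
  rfl

theorem IS3_tsupp (χ : ℂ → ℝ) : tsupport (lap χ) ⊆ tsupport χ := by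
  refine closure_minimal ?_ (isClosed_tsupport χ)
  intro z hz
  by_contra hcon
  apply hz
  have h0 : iteratedFDeriv ℝ 2 χ z = 0 := by
    by_contra h1
    exact hcon (support_iteratedFDeriv_subset 2 h1)
  unfold lap
  rw [h0]
  simp

theorem IS3_lapc (g : ℂ → ℝ) (s : Set ℂ) (hs : IsOpen s) (hg : ContDiffOn ℝ ∞ g s) :
    ContinuousOn (lap g) s := by
  have hg1 : ContDiffOn ℝ ∞ (fderiv ℝ g) s := hg.fderiv_of_isOpen hs (by simp)
  have hg2 : ContinuousOn (fderiv ℝ (fderiv ℝ g)) s :=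
    (hg1.fderiv_of_isOpen (m := ∞) hs (by simp)).continuousOn
  have hgvv : ∀ v : ℂ, ContinuousOn (fun z => fderiv ℝ (fderiv ℝ g) z v v) s := fun v =>
    (hg2.clm_apply continuousOn_const).clm_apply continuousOn_const
  have h2 : lap g = fun z => (1 / 4) * (fderiv ℝ (fderiv ℝ g) z 1 1 +
      fderiv ℝ (fderiv ℝ g) z Complex.I Complex.I) := funext (IS3_lapf g)
  rw [h2]
  exact continuousOn_const.mul ((hgvv 1).add (hgvv Complex.I))

theorem IS3_lap_affine (g : ℂ → ℝ) (z : ℂ) (a b : ℝ) (hg : ContDiffAt ℝ 2 g z) :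
    lap (fun t => a * g t + b) z = a * lap g z := by
  have h1 : (fun t => a * g t + b) = (a • g) + (fun _ : ℂ => b) := rfl
  have h2 : ContDiffAt ℝ (2 : ℕ) g z := hg
  have h3 : ContDiffAt ℝ (2 : ℕ) (a • g) z := contDiffAt_const.smul h2
  unfold lap
  rw [h1, iteratedFDeriv_add_apply h3 contDiffAt_const, iteratedFDeriv_const_smul_apply h2,
    iteratedFDeriv_const_of_ne (by norm_num)]
  simp
  ring

theorem IS3_lap_sub (g f : ℂ → ℝ) (z : ℂ) (hg : ContDiffAt ℝ 2 g z) (hf : ContDiffAt ℝ 2 f z) :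
    lap (fun t => g t - f t) z = lap g z - lap f z := by
  have h1 : (fun t => g t - f t) = g + (-f) := by
    funext t; simp [sub_eq_add_neg]
  have h2 : ContDiffAt ℝ (2 : ℕ) g z := hg
  have h3 : ContDiffAt ℝ (2 : ℕ) f z := hf
  have h4 : ContDiffAt ℝ (2 : ℕ) (-f) z := h3.neg
  unfold lap
  rw [h1, iteratedFDeriv_add_apply h2 h4, iteratedFDeriv_neg_apply]
  simp
  ring

/-! ### The functions `S_c` -/

/-- `|P|²+|Q|²` -/
noncomputable def IS3_N (P Q : ℂ → ℂ) (z : ℂ) : ℝ := Complex.normSq (P z) + Complex.normSq (Q z)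

/-- `log(c (|P|²+|Q|²)² + |W|²)` -/
noncomputable def IS3_S (P Q : ℂ → ℂ) (c : ℝ) (z : ℂ) : ℝ :=
  Real.log (c * IS3_N P Q z ^ 2 + Complex.normSq (Wr P Q z))

theorem IS3_Npos {P Q : ℂ → ℂ} (h : Adm P Q) {z : ℂ} (hz : z ∈ ball (0 : ℂ) 1) : 0 < IS3_N P Q z := by
  unfold IS3_N
  rcases h.2.2 z hz with h1 | h1
  · have := Complex.normSq_pos.2 h1
    have := Complex.normSq_nonneg (Q z)
    linarith
  · have := Complex.normSq_pos.2 h1
    have := Complex.normSq_nonneg (P z)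
    linarith

theorem IS3_exp {P Q : ℂ → ℂ} (h : Adm P Q) {z : ℂ} (hz : z ∈ ball (0 : ℂ) 1) :
    Real.exp (2 * Up P Q z) = IS3_N P Q z := by
  have h1 : 2 * Up P Q z = Real.log (IS3_N P Q z) := by
    unfold Up IS3_N
    ring
  rw [h1, Real.exp_log (IS3_Npos h hz)]

theorem IS3_holS {f : ℂ → ℂ} (h : DifferentiableOn ℂ f (ball 0 1)) :
    ContDiffOn ℝ ∞ f (ball 0 1) :=
  (h.contDiffOn isOpen_ball : ContDiffOn ℂ ∞ f (ball 0 1)).restrict_scalars ℝ

theorem IS3_nsq {f : ℂ → ℂ} (h : DifferentiableOn ℂ f (ball 0 1)) :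
    ContDiffOn ℝ ∞ (fun z => Complex.normSq (f z)) (ball 0 1) := by
  have h1 : (fun z => Complex.normSq (f z)) = fun z => ‖f z‖ ^ 2 := by
    funext z; rw [Complex.normSq_eq_norm_sq]
  rw [h1]
  exact (IS3_holS h).norm_sq ℝ

theorem IS3_hW {P Q : ℂ → ℂ} (h : Adm P Q) : DifferentiableOn ℂ (Wr P Q) (ball 0 1) := by
  have h1 := h.1.deriv isOpen_ball
  have h2 := h.2.1.deriv isOpen_ball
  exact (h.2.1.mul h1).sub (h.1.mul h2)

theorem IS3_arg_pos {P Q : ℂ → ℂ} (h : Adm P Q) {c : ℝ} (hc : 0 < c) {z : ℂ}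
    (hz : z ∈ ball (0 : ℂ) 1) : 0 < c * IS3_N P Q z ^ 2 + Complex.normSq (Wr P Q z) := by
  have h1 := IS3_Npos h hz
  have h2 := Complex.normSq_nonneg (Wr P Q z)
  positivity

theorem IS3_Nsmooth {P Q : ℂ → ℂ} (h : Adm P Q) : ContDiffOn ℝ ∞ (IS3_N P Q) (ball 0 1) :=
  (IS3_nsq h.1).add (IS3_nsq h.2.1)

theorem IS3_Ssmooth {P Q : ℂ → ℂ} (h : Adm P Q) {c : ℝ} (hc : 0 < c) :
    ContDiffOn ℝ ∞ (IS3_S P Q c) (ball 0 1) := by
  have h1 : ContDiffOn ℝ ∞ (fun z => c * IS3_N P Q z ^ 2 + Complex.normSq (Wr P Q z)) (ball 0 1) :=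
    (contDiffOn_const.mul ((IS3_Nsmooth h).pow 2)).add (IS3_nsq (IS3_hW h))
  exact h1.log fun z hz => (IS3_arg_pos h hc hz).ne'

theorem IS3_sph_nonneg (P Q : ℂ → ℂ) (z : ℂ) : 0 ≤ sph P Q z := by
  unfold sph
  exact div_nonneg (Complex.normSq_nonneg _) (by positivity)

theorem IS3_Seq {P Q : ℂ → ℂ} (h : Adm P Q) {c : ℝ} (hc : 0 < c) {z : ℂ}
    (hz : z ∈ ball (0 : ℂ) 1) : IS3_S P Q c z = 4 * Up P Q z + Real.log (c + sph P Q z) := by
  have h1 := IS3_Npos h hz
  have h2 := IS3_sph_nonneg P Q z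
  have h3 : c * IS3_N P Q z ^ 2 + Complex.normSq (Wr P Q z) =
      IS3_N P Q z ^ 2 * (c + sph P Q z) := by
    have : sph P Q z = Complex.normSq (Wr P Q z) / IS3_N P Q z ^ 2 := rfl
    rw [this]
    field_simp
  unfold IS3_S
  rw [h3, Real.log_mul (by positivity) (by positivity), Real.log_pow]
  unfold Up IS3_N
  push_cast
  ring

/-- translation -/
theorem IS3_trans (hCH1 : CH1_stmt) (g : ℂ → ℝ) (z₀ : ℂ) (hg : ContDiffAt ℝ 2 g z₀) :
    lap (fun s => g (z₀ + s)) 0 = lap g z₀ := by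
  have h1 : DifferentiableOn ℂ (fun s : ℂ => z₀ + s) univ := by fun_prop
  have h2 := hCH1.1 univ (fun s : ℂ => z₀ + s) g 0 isOpen_univ h1 (mem_univ _) (by
    simpa using hg)
  rw [h2]
  have h3 : deriv (fun s : ℂ => z₀ + s) 0 = 1 := by
    rw [deriv_const_add, deriv_id'']
  rw [h3]
  simp

theorem IS3_two_le : (2 : WithTop ℕ∞) ≤ ∞ := WithTop.coe_le_coe.2 (le_top : (2 : ℕ∞) ≤ ⊤)

theorem IS3_subh (hLSE : LSE_stmt) (hCH1 : CH1_stmt) {P Q : ℂ → ℂ} (h : Adm P Q) {c : ℝ}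
    (hc : 0 < c) {z₀ : ℂ} (hz : z₀ ∈ ball (0 : ℂ) 1) : 0 ≤ lap (IS3_S P Q c) z₀ := by
  obtain ⟨hU, hUl⟩ := hCH1.2 (ball 0 1) P Q isOpen_ball h.1 h.2.1 h.2.2
  set Ω : Set ℂ := (fun s : ℂ => z₀ + s) ⁻¹' ball 0 1 with hΩ
  have hΩo : IsOpen Ω := isOpen_ball.preimage (by fun_prop)
  have h0 : (0 : ℂ) ∈ Ω := by
    rw [hΩ, mem_preimage, add_zero]; exact hz
  have hmaps : MapsTo (fun s : ℂ => z₀ + s) Ω (ball 0 1) := fun s hs => hs
  have hG : DifferentiableOn ℂ (fun t => (fun _ : Fin 1 => Wr P Q (z₀ + t))) Ω := by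
    rw [differentiableOn_pi]
    intro i
    exact (IS3_hW h).comp (by fun_prop) hmaps
  have hB : ContDiffOn ℝ 2 (fun t => 2 * Up P Q (z₀ + t) + (1 / 2) * Real.log c) Ω := by
    have h1 : ContDiffOn ℝ 2 (fun t => Up P Q (z₀ + t)) Ω :=
      (hU.of_le IS3_two_le).comp (by fun_prop) hmaps
    exact (contDiffOn_const.mul h1).add contDiffOn_const
  have hUat : ContDiffAt ℝ 2 (Up P Q) z₀ :=
    (hU.of_le IS3_two_le).contDiffAt (isOpen_ball.mem_nhds hz)
  have hUat' : ContDiffAt ℝ 2 (fun t => Up P Q (z₀ + t)) 0 := by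
    have h1 : ContDiffAt ℝ 2 (Up P Q) (z₀ + 0) := by simpa using hUat
    exact h1.comp (0 : ℂ) (by fun_prop)
  have hlapB : 0 ≤ lap (fun t => 2 * Up P Q (z₀ + t) + (1 / 2) * Real.log c) 0 := by
    rw [IS3_lap_affine _ _ _ _ hUat', IS3_trans hCH1 _ _ hUat, hUl z₀ hz]
    have := IS3_sph_nonneg P Q z₀
    linarith
  have key := hLSE 1 (fun t => (fun _ : Fin 1 => Wr P Q (z₀ + t)))
    (fun t => 2 * Up P Q (z₀ + t) + (1 / 2) * Real.log c) Ω hΩo h0 hG hB hlapB
  have hSat : ContDiffAt ℝ 2 (IS3_S P Q c) z₀ :=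
    ((IS3_Ssmooth h hc).of_le IS3_two_le).contDiffAt (isOpen_ball.mem_nhds hz)
  have hSat' : ContDiffAt ℝ 2 (fun t => IS3_S P Q c (z₀ + t)) 0 := by
    have h1 : ContDiffAt ℝ 2 (IS3_S P Q c) (z₀ + 0) := by simpa using hSat
    exact h1.comp (0 : ℂ) (by fun_prop)
  have heq : (fun t => (1 / 2) * Real.log (nq (fun _ : Fin 1 => Wr P Q (z₀ + t)) +
      Real.exp (2 * (2 * Up P Q (z₀ + t) + (1 / 2) * Real.log c)))) =ᶠ[𝓝 0]
      fun t => (1 / 2) * IS3_S P Q c (z₀ + t) + 0 := by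
    filter_upwards [hΩo.mem_nhds h0] with t ht
    have ht' : z₀ + t ∈ ball (0 : ℂ) 1 := ht
    have e1 : Real.exp (2 * (2 * Up P Q (z₀ + t) + (1 / 2) * Real.log c)) =
        c * IS3_N P Q (z₀ + t) ^ 2 := by
      have e2 : 2 * (2 * Up P Q (z₀ + t) + (1 / 2) * Real.log c) =
        2 * Up P Q (z₀ + t) + 2 * Up P Q (z₀ + t) + Real.log c := by ring
      rw [e2, Real.exp_add, Real.exp_add, IS3_exp h ht', Real.exp_log hc]
      ring
    rw [e1]
    unfold nq IS3_S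
    simp only [Finset.univ_unique, Finset.sum_const, Finset.card_singleton, one_smul]
    rw [add_comm (Complex.normSq (Wr P Q (z₀ + t)))]
    ring
  have hl : lap (fun t => (1 / 2) * Real.log (nq (fun _ : Fin 1 => Wr P Q (z₀ + t)) +
      Real.exp (2 * (2 * Up P Q (z₀ + t) + (1 / 2) * Real.log c)))) 0 =
      lap (fun t => (1 / 2) * IS3_S P Q c (z₀ + t) + 0) 0 := by
    unfold lap
    rw [(Filter.EventuallyEq.iteratedFDeriv ℝ heq 2).eq_of_nhds]
  rw [hl, IS3_lap_affine _ _ _ _ hSat', IS3_trans hCH1 _ _ hSat] at key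
  linarith

/-! ### Estimates -/

theorem IS3_bound {P Q : ℂ → ℂ} (h : Adm P Q) {E c : ℝ} (hE : 1 ≤ E)
    (hU : ∀ z ∈ ball (0 : ℂ) 1, |Up P Q z| ≤ E)
    (hW : ∀ z ∈ ball (0 : ℂ) (19 / 20), ‖Wr P Q z‖ ≤ Real.exp (6 * E)) (hc : 0 < c) (hcE : c ≤ E)
    (hlc : -E ≤ Real.log c) {z : ℂ} (hz : z ∈ ball (0 : ℂ) (4 / 5)) : |IS3_S P Q c z| ≤ 13 * E := by
  have hz1 : z ∈ ball (0 : ℂ) 1 := ball_subset_ball (by norm_num) hz
  have hz2 : z ∈ ball (0 : ℂ) (19 / 20) := ball_subset_ball (by norm_num) hz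
  have hU' := abs_le.1 (hU z hz1)
  rw [abs_le]
  constructor
  · rw [IS3_Seq h hc hz1]
    have h1 : Real.log c ≤ Real.log (c + sph P Q z) :=
      Real.log_le_log hc (by linarith [IS3_sph_nonneg P Q z])
    linarith [hU'.1]
  · have h1 := IS3_arg_pos h hc hz1
    unfold IS3_S
    rw [Real.log_le_iff_le_exp h1]
    have h2 : IS3_N P Q z ≤ Real.exp (2 * E) := by
      rw [← IS3_exp h hz1]
      exact Real.exp_le_exp.2 (by linarith [hU'.2])
    have h3 : IS3_N P Q z ^ 2 ≤ Real.exp (4 * E) := by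
      calc IS3_N P Q z ^ 2 ≤ Real.exp (2 * E) ^ 2 := pow_le_pow_left₀ (IS3_Npos h hz1).le h2 2
        _ = Real.exp (4 * E) := by rw [← Real.exp_nat_mul]; congr 1; push_cast; ring
    have h4 : Complex.normSq (Wr P Q z) ≤ Real.exp (12 * E) := by
      rw [Complex.normSq_eq_norm_sq]
      calc ‖Wr P Q z‖ ^ 2 ≤ Real.exp (6 * E) ^ 2 := pow_le_pow_left₀ (norm_nonneg _) (hW z hz2) 2
        _ = Real.exp (12 * E) := by rw [← Real.exp_nat_mul]; congr 1; push_cast; ring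
    have h5 : E ≤ Real.exp E := by linarith [Real.add_one_le_exp E]
    have h6 : c * IS3_N P Q z ^ 2 ≤ Real.exp (12 * E) := by
      calc c * IS3_N P Q z ^ 2 ≤ Real.exp E * Real.exp (4 * E) :=
            mul_le_mul (hcE.trans h5) h3 (by positivity) (by positivity)
        _ = Real.exp (5 * E) := by rw [← Real.exp_add]; congr 1; ring
        _ ≤ Real.exp (12 * E) := Real.exp_le_exp.2 (by linarith)
    have h7 : (2 : ℝ) ≤ Real.exp E := by linarith [Real.add_one_le_exp E]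
    calc c * IS3_N P Q z ^ 2 + Complex.normSq (Wr P Q z) ≤ 2 * Real.exp (12 * E) := by linarith
      _ ≤ Real.exp E * Real.exp (12 * E) := mul_le_mul_of_nonneg_right h7 (by positivity)
      _ = Real.exp (13 * E) := by rw [← Real.exp_add]; congr 1; ring

/-- properties of the difference of the two logarithms; `η = r⁴`, `s` is the value of `sph` -/
theorem IS3_H {r E s L : ℝ} (hr : 0 < r) (hr1 : r ^ 4 ≤ 1 / 16) (hE : 1 ≤ E) (hs : 0 ≤ s)
    (hL : L = -4 * Real.log r) :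
    0 < L ∧ r ≤ 4 / L ∧ 0 ≤ 2 / L * (Real.log (r ^ 2 * E + s) - Real.log (r ^ 4 * E + s)) ∧
      2 / L * (Real.log (r ^ 2 * E + s) - Real.log (r ^ 4 * E + s)) ≤ 1 ∧
      (s ≤ r ^ 4 * E → 1 / 2 ≤ 2 / L * (Real.log (r ^ 2 * E + s) - Real.log (r ^ 4 * E + s))) ∧
      2 / L * (Real.log (r ^ 2 * E + s) - Real.log (r ^ 4 * E + s)) * s / 2 ≤
        2 * E / L + s / L := by
  have hr2 : r ≤ 1 / 2 := by
    by_contra hcon
    push Not at hcon
    have : (1 / 2 : ℝ) ^ 4 < r ^ 4 := pow_lt_pow_left₀ hcon (by norm_num) (by norm_num)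
    norm_num at this
    linarith
  have hlogr : Real.log r < 0 := Real.log_neg hr (by linarith)
  have hL0 : 0 < L := by rw [hL]; linarith
  have hE0 : 0 < E := by linarith
  have hc1 : 0 < r ^ 2 * E + s := by positivity
  have hc2 : 0 < r ^ 4 * E + s := by positivity
  have hr4 : r ^ 4 ≤ r ^ 2 := pow_le_pow_of_le_one hr.le (by linarith) (by norm_num)
  have hrle : r ^ 2 ≤ 1 := pow_le_one₀ hr.le (by linarith)
  have hd0 : 0 ≤ Real.log (r ^ 2 * E + s) - Real.log (r ^ 4 * E + s) := by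
    have : Real.log (r ^ 4 * E + s) ≤ Real.log (r ^ 2 * E + s) := by
      apply Real.log_le_log hc2
      have := mul_le_mul_of_nonneg_right hr4 hE0.le
      linarith
    linarith
  have hd1 : Real.log (r ^ 2 * E + s) - Real.log (r ^ 4 * E + s) ≤ -(2 * Real.log r) := by
    have h1 : Real.log (r ^ 2 * (r ^ 2 * E + s)) ≤ Real.log (r ^ 4 * E + s) := by
      apply Real.log_le_log (by positivity)
      have := mul_le_mul_of_nonneg_right hrle hs
      nlinarith
    rw [Real.log_mul (by positivity) hc1.ne', Real.log_pow] at h1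
    push_cast at h1
    linarith
  have hrL : r ≤ 4 / L := by
    rw [le_div_iff₀ hL0, hL]
    have h1 : Real.log r⁻¹ ≤ r⁻¹ - 1 := Real.log_le_sub_one_of_pos (by positivity)
    rw [Real.log_inv] at h1
    have h2 : r * (-Real.log r) ≤ r * (r⁻¹ - 1) := mul_le_mul_of_nonneg_left h1 hr.le
    have h3 : r * (r⁻¹ - 1) = 1 - r := by field_simp
    nlinarith
  have hHle : 2 / L * (Real.log (r ^ 2 * E + s) - Real.log (r ^ 4 * E + s)) ≤ 1 := by
    calc 2 / L * (Real.log (r ^ 2 * E + s) - Real.log (r ^ 4 * E + s))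
        ≤ 2 / L * (-(2 * Real.log r)) := mul_le_mul_of_nonneg_left hd1 (by positivity)
      _ = 1 := by
          have : -(2 * Real.log r) = L / 2 := by rw [hL]; ring
          rw [this]
          field_simp
  refine ⟨hL0, hrL, mul_nonneg (by positivity) hd0, hHle, ?_, ?_⟩
  · intro hse
    have h1 : Real.log (r ^ 4 * E + s) ≤ Real.log (2 * r ^ 2 * (r ^ 2 * E + s)) := by
      apply Real.log_le_log hc2
      have : 0 ≤ 2 * r ^ 2 * s := by positivity
      nlinarith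
    rw [Real.log_mul (by positivity) hc1.ne', Real.log_mul (by norm_num) (by positivity),
      Real.log_pow] at h1
    push_cast at h1
    have h2 : 4 * Real.log 2 ≤ L := by
      have h3 : Real.log (r ^ 4) ≤ Real.log (1 / 16) := Real.log_le_log (by positivity) hr1
      have h4 : (1 / 16 : ℝ) = (2 ^ 4)⁻¹ := by norm_num
      rw [Real.log_pow, h4, Real.log_inv, Real.log_pow] at h3
      push_cast at h3
      rw [hL]
      linarith
    rw [div_mul_eq_mul_div, le_div_iff₀ hL0]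
    have h5 : -(2 * Real.log r) = L / 2 := by rw [hL]; ring
    linarith
  · by_cases hsr : s ≤ r * E
    · have h1 : 2 / L * (Real.log (r ^ 2 * E + s) - Real.log (r ^ 4 * E + s)) * s ≤ 1 * s :=
        mul_le_mul_of_nonneg_right hHle hs
      have h2 : s ≤ 4 / L * E := hsr.trans (mul_le_mul_of_nonneg_right hrL hE0.le)
      have h3 : 4 / L * E = 2 * (2 * E / L) := by ring
      have h4 : 0 ≤ s / L := by positivity
      linarith
    · push Not at hsr
      have hs0 : 0 < s := lt_trans (by positivity) hsr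
      have h1 : Real.log (r ^ 2 * E + s) - Real.log (r ^ 4 * E + s) ≤ r ^ 2 * E / s := by
        rw [← Real.log_div hc1.ne' hc2.ne']
        have h2 := Real.log_le_sub_one_of_pos (div_pos hc1 hc2)
        have h3 : (r ^ 2 * E + s) / (r ^ 4 * E + s) - 1 ≤ r ^ 2 * E / s := by
          have h4 : (r ^ 2 * E + s) / (r ^ 4 * E + s) ≤ (r ^ 2 * E + s) / s := by
            apply div_le_div_of_nonneg_left hc1.le hs0
            have : 0 ≤ r ^ 4 * E := by positivity
            linarith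
          have h5 : (r ^ 2 * E + s) / s = r ^ 2 * E / s + 1 := by field_simp
          linarith
        linarith
      have h6 : r ^ 2 * E ≤ s := by
        have : r ^ 2 * E ≤ r * E := by
          apply mul_le_mul_of_nonneg_right _ hE0.le
          nlinarith
        linarith
      have h7 : 2 / L * (Real.log (r ^ 2 * E + s) - Real.log (r ^ 4 * E + s)) * s / 2 ≤
          r ^ 2 * E / L := by
        calc 2 / L * (Real.log (r ^ 2 * E + s) - Real.log (r ^ 4 * E + s)) * s / 2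
            ≤ 2 / L * (r ^ 2 * E / s) * s / 2 := by
              apply div_le_div_of_nonneg_right _ (by norm_num)
              apply mul_le_mul_of_nonneg_right _ hs
              exact mul_le_mul_of_nonneg_left h1 (by positivity)
          _ = r ^ 2 * E / L := by field_simp
      have h8 : r ^ 2 * E / L ≤ s / L := div_le_div_of_nonneg_right h6 hL0.le
      have h9 : 0 ≤ 2 * E / L := by positivity
      linarith

theorem IS3_sphc {P Q : ℂ → ℂ} (h : Adm P Q) : ContinuousOn (sph P Q) (ball 0 1) := by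
  have h1 : sph P Q = fun z => Complex.normSq (Wr P Q z) / IS3_N P Q z ^ 2 := rfl
  rw [h1]
  exact (IS3_nsq (IS3_hW h)).continuousOn.div ((IS3_Nsmooth h).continuousOn.pow 2)
    fun z hz => (pow_pos (IS3_Npos h hz) 2).ne'

theorem IS3_meas {P Q : ℂ → ℂ} (h : Adm P Q) (a : ℝ) :
    MeasurableSet (ball (0 : ℂ) (3 / 4) ∩ {z | sph P Q z ≤ a}) := by
  have h1 : IsOpen (ball (0 : ℂ) 1 ∩ sph P Q ⁻¹' Ioi a) :=
    (IS3_sphc h).isOpen_inter_preimage isOpen_ball isOpen_Ioi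
  have h2 : ball (0 : ℂ) (3 / 4) ∩ {z | sph P Q z ≤ a} =
      ball (0 : ℂ) (3 / 4) \ (ball (0 : ℂ) 1 ∩ sph P Q ⁻¹' Ioi a) := by
    ext z
    constructor
    · rintro ⟨hz, hz2⟩
      refine ⟨hz, fun hcon => ?_⟩
      have h3 : a < sph P Q z := hcon.2
      exact absurd hz2 (not_le.2 h3)
    · rintro ⟨hz, hz2⟩
      refine ⟨hz, ?_⟩
      by_contra hcon
      apply hz2
      have h3 : a < sph P Q z := not_le.1 hcon
      exact ⟨ball_subset_ball (by norm_num) hz, h3⟩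
  rw [h2]
  exact measurableSet_ball.diff h1.measurableSet

theorem IS3_weak (hLSE : LSE_stmt) (hCH1 : CH1_stmt) (hIB1 : IB1_stmt) {P Q : ℂ → ℂ}
    (h : Adm P Q) {c : ℝ} (hc : 0 < c) (κ : ℂ → ℝ) (hκ : ContDiff ℝ ∞ κ)
    (hκc : HasCompactSupport κ) (hκs : tsupport κ ⊆ ball 0 (4 / 5)) (hκ0 : ∀ z, 0 ≤ κ z) :
    0 ≤ ∫ z, lap κ z * IS3_S P Q c z := by
  have hs : tsupport κ ⊆ ball (0 : ℂ) 1 := hκs.trans (ball_subset_ball (by norm_num))
  rw [← hIB1 (ball 0 1) κ (IS3_S P Q c) isOpen_ball hκ hκc hs (IS3_Ssmooth h hc)]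
  apply integral_nonneg
  intro z
  show 0 ≤ κ z * lap (IS3_S P Q c) z
  by_cases hz : z ∈ ball (0 : ℂ) 1
  · exact mul_nonneg (hκ0 z) (IS3_subh hLSE hCH1 h hc hz)
  · have : κ z = 0 := by
      by_contra hcon
      exact hz (hs (subset_tsupport κ hcon))
    rw [this, zero_mul]

theorem IS3_Sint {P Q : ℂ → ℂ} (h : Adm P Q) {c : ℝ} (hc : 0 < c) :
    IntegrableOn (IS3_S P Q c) (ball 0 (4 / 5)) := by
  have h1 : IntegrableOn (IS3_S P Q c) (closedBall 0 (4 / 5)) :=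
    ((IS3_Ssmooth h hc).continuousOn.mono (closedBall_subset_ball (by norm_num))).integrableOn_compact
      (isCompact_closedBall 0 (4 / 5))
  exact h1.mono_set ball_subset_closedBall

theorem IS3_Sabs {P Q : ℂ → ℂ} (h : Adm P Q) {E c : ℝ} (hE : 1 ≤ E)
    (hU : ∀ z ∈ ball (0 : ℂ) 1, |Up P Q z| ≤ E)
    (hW : ∀ z ∈ ball (0 : ℂ) (19 / 20), ‖Wr P Q z‖ ≤ Real.exp (6 * E)) (hc : 0 < c) (hcE : c ≤ E)
    (hlc : -E ≤ Real.log c) :
    ∫ z in ball (0 : ℂ) (4 / 5), |IS3_S P Q c z| ≤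
      13 * E * (volume.real (ball (0 : ℂ) (4 / 5)) + 1) := by
  have h1 : ‖∫ z in ball (0 : ℂ) (4 / 5), |IS3_S P Q c z|‖ ≤
      13 * E * volume.real (ball (0 : ℂ) (4 / 5)) := by
    apply norm_setIntegral_le_of_norm_le_const measure_ball_lt_top
    intro z hz
    rw [Real.norm_eq_abs, abs_abs]
    exact IS3_bound h hE hU hW hc hcE hlc hz
  rw [Real.norm_eq_abs] at h1
  have h2 := le_abs_self (∫ z in ball (0 : ℂ) (4 / 5), |IS3_S P Q c z|)
  linarith

theorem IS3 (hLSE : LSE_stmt) (hCH1 : CH1_stmt) (hIB1 : IB1_stmt) (hLGW : LGW_stmt) (hCUT : CUT_stmt) : IS3_stmt := by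
  obtain ⟨_, _, hLG⟩ := hLGW
  -- the cut-off
  let f : ContDiffBump (0 : ℂ) := ⟨3 / 4, 79 / 100, by norm_num, by norm_num⟩
  have hχ : ContDiff ℝ ∞ (f : ℂ → ℝ) := f.contDiff
  have hχc : HasCompactSupport (f : ℂ → ℝ) := f.hasCompactSupport
  have hχs : tsupport (f : ℂ → ℝ) ⊆ ball 0 (4 / 5) := by
    rw [f.tsupport_eq]
    exact closedBall_subset_ball (by norm_num [f])
  have hχ0 : ∀ z, 0 ≤ f z := fun z => f.nonneg
  have hχ1 : ∀ z ∈ ball (0 : ℂ) (3 / 4), f z = 1 := fun z hz =>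
    f.one_of_mem_closedBall (ball_subset_closedBall hz)
  generalize (f : ℂ → ℝ) = χ at hχ hχc hχs hχ0 hχ1
  clear f
  obtain ⟨C1, hC1, hcut⟩ := hCUT χ hχ hχc hχs hχ0
  have hχs1 : tsupport χ ⊆ ball (0 : ℂ) 1 := hχs.trans (ball_subset_ball (by norm_num))
  have hχz : ∀ z, z ∉ ball (0 : ℂ) 1 → χ z = 0 := by
    intro z hz
    by_contra hcon
    exact hz (hχs1 (subset_tsupport χ hcon))
  set Vol : ℝ := volume.real (ball (0 : ℂ) (4 / 5)) + 1 with hVol
  have hVol0 : 0 < Vol := by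
    have : 0 ≤ volume.real (ball (0 : ℂ) (4 / 5)) := measureReal_nonneg
    linarith
  set X0 : ℝ := ∫ z, χ z with hX0
  have hX00 : 0 ≤ X0 := integral_nonneg hχ0
  set I0 : ℝ := ∫ z, |lap χ z| with hI0
  have hI00 : 0 ≤ I0 := integral_nonneg fun z => abs_nonneg _
  refine ⟨2 * C1 * (1 + 26 * Vol) + 4 * X0 + 4 * I0 + 1, by positivity, ?_⟩
  intro P Q V E B η hA hE hU hmass hV hVl hB hVU hη hη1 hlog
  obtain ⟨hW, -, -⟩ := hLG P Q E hA hE hU hmass
  obtain ⟨hUs, hUl⟩ := hCH1.2 (ball 0 1) P Q isOpen_ball hA.1 hA.2.1 hA.2.2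
  -- parameters
  set L : ℝ := Real.log (1 / η) with hLdef
  obtain ⟨r, hr, hr4⟩ : ∃ r : ℝ, 0 < r ∧ r ^ 4 = η := by
    refine ⟨Real.sqrt (Real.sqrt η), by positivity, ?_⟩
    have h1 : Real.sqrt (Real.sqrt η) ^ 4 = (Real.sqrt (Real.sqrt η) ^ 2) ^ 2 := by ring
    rw [h1, Real.sq_sqrt (Real.sqrt_nonneg _), Real.sq_sqrt hη.le]
  have hLr : L = -4 * Real.log r := by
    rw [hLdef, ← hr4, one_div, Real.log_inv, Real.log_pow]
    push_cast
    ring
  have hE0 : 0 < E := by linarith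
  have hH := fun s (hs : 0 ≤ s) => IS3_H (E := E) (s := s) (L := L) hr (hr4 ▸ hη1) hE hs hLr
  have hL0 : 0 < L := (hH 0 le_rfl).1
  have hr1 : r ≤ 1 := by
    by_contra hcon
    push Not at hcon
    have : 1 < r ^ 4 := one_lt_pow₀ hcon (by norm_num)
    linarith
  set c1 : ℝ := r ^ 2 * E with hc1
  set c2 : ℝ := r ^ 4 * E with hc2
  have hc10 : 0 < c1 := by positivity
  have hc20 : 0 < c2 := by positivity
  have hc1E : c1 ≤ E := by
    have : r ^ 2 ≤ 1 := pow_le_one₀ hr.le hr1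
    rw [hc1]
    nlinarith
  have hc2E : c2 ≤ E := by
    have : r ^ 4 ≤ 1 := pow_le_one₀ hr.le hr1
    rw [hc2]
    nlinarith
  have hlogE : 0 ≤ Real.log E := Real.log_nonneg hE
  have hlc1 : -E ≤ Real.log c1 := by
    rw [hc1, Real.log_mul (by positivity) hE0.ne', Real.log_pow]
    push_cast
    linarith
  have hlc2 : -E ≤ Real.log c2 := by
    rw [hc2, Real.log_mul (by positivity) hE0.ne', Real.log_pow]
    push_cast
    linarith
  -- the function H
  set H : ℂ → ℝ := fun z => 2 / L * (IS3_S P Q c1 z - IS3_S P Q c2 z) with hHdef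
  have hHeq : ∀ z ∈ ball (0 : ℂ) 1, H z = 2 / L * (Real.log (c1 + sph P Q z) -
      Real.log (c2 + sph P Q z)) := by
    intro z hz
    show 2 / L * (IS3_S P Q c1 z - IS3_S P Q c2 z) = _
    rw [IS3_Seq hA hc10 hz, IS3_Seq hA hc20 hz]
    ring
  have hH0 : ∀ z ∈ ball (0 : ℂ) 1, 0 ≤ H z := by
    intro z hz
    rw [hHeq z hz]
    exact (hH _ (IS3_sph_nonneg P Q z)).2.2.1
  have hH1 : ∀ z ∈ ball (0 : ℂ) 1, H z ≤ 1 := by
    intro z hz
    rw [hHeq z hz]
    exact (hH _ (IS3_sph_nonneg P Q z)).2.2.2.1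
  have hH2 : ∀ z ∈ ball (0 : ℂ) 1, sph P Q z ≤ η * E → 1 / 2 ≤ H z := by
    intro z hz hz2
    rw [hHeq z hz]
    exact (hH _ (IS3_sph_nonneg P Q z)).2.2.2.2.1 (by rw [hc2, hr4]; exact hz2)
  have hH3 : ∀ z ∈ ball (0 : ℂ) 1, H z * sph P Q z / 2 ≤ 2 * E / L + sph P Q z / L := by
    intro z hz
    rw [hHeq z hz]
    exact (hH _ (IS3_sph_nonneg P Q z)).2.2.2.2.2
  have hHc : ContinuousOn H (ball 0 1) :=
    continuousOn_const.mul ((IS3_Ssmooth hA hc10).continuousOn.sub (IS3_Ssmooth hA hc20).continuousOn)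
  have hVc : ContinuousOn (lap V) (ball 0 1) := IS3_lapc V _ isOpen_ball hV
  have hUc : ContinuousOn (lap (Up P Q)) (ball 0 1) := IS3_lapc _ _ isOpen_ball hUs
  have hχcont : ContinuousOn χ (ball 0 1) := hχ.continuous.continuousOn
  have hint : ∀ g : ℂ → ℝ, ContinuousOn g (ball 0 1) → Integrable (fun z => χ z * g z) := fun g hg =>
    IS3_integrable (ball 0 1) χ g hχcont hχc hχs1 hg
  -- step 1
  have hstep1 : (∫ z in ball (0 : ℂ) (3 / 4) ∩ {z | sph P Q z ≤ η * E}, lap V z) ≤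
      ∫ z, 2 * (χ z * (H z * lap V z)) := by
    rw [← integral_indicator (IS3_meas hA (η * E))]
    apply integral_mono_of_nonneg
    · refine Eventually.of_forall fun z => ?_
      apply indicator_nonneg
      rintro w ⟨hw, -⟩
      exact hVl w (ball_subset_ball (by norm_num) hw)
    · exact (hint (fun z => H z * lap V z) (hHc.mul hVc)).const_mul 2
    · refine Eventually.of_forall fun z => ?_
      show indicator (ball (0 : ℂ) (3 / 4) ∩ {z | sph P Q z ≤ η * E}) (lap V) z ≤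
        2 * (χ z * (H z * lap V z))
      by_cases hz : z ∈ ball (0 : ℂ) (3 / 4) ∩ {z | sph P Q z ≤ η * E}
      · rw [indicator_of_mem hz, hχ1 z hz.1, one_mul]
        have hz1 : z ∈ ball (0 : ℂ) 1 := ball_subset_ball (by norm_num) hz.1
        have h1 := mul_le_mul_of_nonneg_right (hH2 z hz1 hz.2) (hVl z hz1)
        linarith
      · rw [indicator_of_notMem hz]
        by_cases hz1 : z ∈ ball (0 : ℂ) 1
        · exact mul_nonneg (by norm_num) (mul_nonneg (hχ0 z) (mul_nonneg (hH0 z hz1) (hVl z hz1)))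
        · rw [hχz z hz1, zero_mul, mul_zero]
  -- step 2
  have hsub : ∀ z ∈ ball (0 : ℂ) 1, lap (fun t => V t - Up P Q t) z = lap V z - lap (Up P Q) z := by
    intro z hz
    apply IS3_lap_sub
    · exact (hV.of_le IS3_two_le).contDiffAt (isOpen_ball.mem_nhds hz)
    · exact (hUs.of_le IS3_two_le).contDiffAt (isOpen_ball.mem_nhds hz)
  have hvc : ContinuousOn (lap (fun t => V t - Up P Q t)) (ball 0 1) :=
    IS3_lapc _ _ isOpen_ball (hV.sub hUs)
  have hstep2 : ∫ z, χ z * (H z * lap V z) = (∫ z, χ z * H z * lap (fun t => V t - Up P Q t) z) +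
      ∫ z, χ z * (H z * lap (Up P Q) z) := by
    have h1 : (fun z => χ z * H z * lap (fun t => V t - Up P Q t) z) =
        fun z => χ z * (H z * lap (fun t => V t - Up P Q t) z) := by
      funext z; ring
    rw [h1, ← integral_add (hint (fun z => H z * lap (fun t => V t - Up P Q t) z) (hHc.mul hvc))
      (hint (fun z => H z * lap (Up P Q) z) (hHc.mul hUc))]
    apply integral_congr_ae
    refine Eventually.of_forall fun z => ?_
    show χ z * (H z * lap V z) = χ z * (H z * lap (fun t => V t - Up P Q t) z) +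
      χ z * (H z * lap (Up P Q) z)
    by_cases hz1 : z ∈ ball (0 : ℂ) 1
    · rw [hsub z hz1]
      ring
    · rw [hχz z hz1]
      ring
  -- step 3
  have hstep3 : |∫ z, χ z * H z * lap (fun t => V t - Up P Q t) z| ≤
      C1 * B * (1 + 2 / L * (13 * E * Vol)) := by
    refine hcut (IS3_S P Q c1) (IS3_S P Q c2) (fun t => V t - Up P Q t) (2 / L) (13 * E * Vol) B
      (by positivity) (by positivity) hB (IS3_Sint hA hc10) (IS3_Sint hA hc20)
      (IS3_Sabs hA hE hU hW hc10 hc1E hlc1) (IS3_Sabs hA hE hU hW hc20 hc2E hlc2)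
      ?_ ?_ (hV.sub hUs) hVU
    · intro κ hκ hκc hκs hκ0
      exact ⟨IS3_weak hLSE hCH1 hIB1 hA hc10 κ hκ hκc hκs hκ0,
        IS3_weak hLSE hCH1 hIB1 hA hc20 κ hκ hκc hκs hκ0⟩
    · refine Eventually.of_forall fun z hz => ?_
      have hz1 : z ∈ ball (0 : ℂ) 1 := ball_subset_ball (by norm_num) hz
      exact ⟨hH0 z hz1, hH1 z hz1⟩
  -- step 4
  have hχint : Integrable χ := by
    have := hint (fun _ => 1) continuousOn_const
    simpa using this
  have hlχ : Integrable (lap χ) := by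
    have h1 : Continuous (lap χ) := by
      have := IS3_lapc χ univ isOpen_univ hχ.contDiffOn
      exact continuousOn_univ.1 this
    exact h1.integrable_of_hasCompactSupport (hχc.mono' ((subset_tsupport _).trans (IS3_tsupp χ)))
  have hstep4 : ∫ z, χ z * (H z * lap (Up P Q) z) ≤ 2 * E / L * X0 +
      2 / L * ∫ z, χ z * lap (Up P Q) z := by
    have h1 : 2 * E / L * X0 + 2 / L * (∫ z, χ z * lap (Up P Q) z) =
        ∫ z, (2 * E / L * χ z + 2 / L * (χ z * lap (Up P Q) z)) := by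
      rw [integral_add (hχint.const_mul _) ((hint _ hUc).const_mul _), integral_const_mul,
        integral_const_mul]
    rw [h1]
    apply integral_mono (hint (fun z => H z * lap (Up P Q) z) (hHc.mul hUc))
      ((hχint.const_mul _).add ((hint _ hUc).const_mul _))
    intro z
    show χ z * (H z * lap (Up P Q) z) ≤ 2 * E / L * χ z + 2 / L * (χ z * lap (Up P Q) z)
    by_cases hz1 : z ∈ ball (0 : ℂ) 1
    · rw [hUl z hz1]
      have h2 := mul_le_mul_of_nonneg_left (hH3 z hz1) (hχ0 z)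
      have h3 : χ z * (H z * (sph P Q z / 2)) = χ z * (H z * sph P Q z / 2) := by ring
      have h4 : χ z * (2 * E / L + sph P Q z / L) =
        2 * E / L * χ z + 2 / L * (χ z * (sph P Q z / 2)) := by ring
      rw [h3, ← h4]
      exact h2
    · rw [hχz z hz1]
      simp
  have hstep5 : ∫ z, χ z * lap (Up P Q) z ≤ I0 * E := by
    rw [hIB1 (ball 0 1) χ (Up P Q) isOpen_ball hχ hχc hχs1 hUs, hI0, ← integral_mul_const]
    have h1 : (∫ z, lap χ z * Up P Q z) ≤ ∫ z, |lap χ z * Up P Q z| :=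
      (le_abs_self _).trans (abs_integral_le_integral_abs)
    refine h1.trans ?_
    apply integral_mono_of_nonneg (Eventually.of_forall fun z => abs_nonneg _)
      (hlχ.abs.mul_const _)
    refine Eventually.of_forall fun z => ?_
    show |lap χ z * Up P Q z| ≤ |lap χ z| * E
    rw [abs_mul]
    by_cases hz1 : z ∈ ball (0 : ℂ) 1
    · exact mul_le_mul_of_nonneg_left (hU z hz1) (abs_nonneg _)
    · have h2 : lap χ z = 0 := by
        by_contra hcon
        exact hz1 (hχs1 (IS3_tsupp χ (subset_tsupport _ hcon)))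
      rw [h2]
      simp
  -- conclusion
  have hEL : 1 ≤ E / L := by
    rw [le_div_iff₀ hL0]
    linarith
  rw [integral_const_mul] at hstep1
  have h6 := le_abs_self (∫ z, χ z * H z * lap (fun t => V t - Up P Q t) z)
  have h7 : 2 / L * (∫ z, χ z * lap (Up P Q) z) ≤ 2 / L * (I0 * E) :=
    mul_le_mul_of_nonneg_left hstep5 (by positivity)
  have h8 : (∫ z in ball (0 : ℂ) (3 / 4) ∩ {z | sph P Q z ≤ η * E}, lap V z) ≤
      2 * (C1 * B * (1 + 2 / L * (13 * E * Vol)) + (2 * E / L * X0 + 2 / L * (I0 * E))) := by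
    linarith
  refine h8.trans ?_
  have h9 : 2 * (C1 * B * (1 + 2 / L * (13 * E * Vol)) + (2 * E / L * X0 + 2 / L * (I0 * E))) =
      2 * C1 * B * (1 + 26 * Vol * (E / L)) + (4 * X0 + 4 * I0) * (E / L) := by
    ring
  have h10 : (2 * C1 * (1 + 26 * Vol) + 4 * X0 + 4 * I0 + 1) * (1 + B) * E / L =
      2 * C1 * (1 + B) * ((1 + 26 * Vol) * (E / L)) + (4 * X0 + 4 * I0 + 1) * (1 + B) * (E / L) := by
    ring
  rw [h9, h10]
  have h11 : 1 + 26 * Vol * (E / L) ≤ (1 + 26 * Vol) * (E / L) := by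
    nlinarith
  have h12 : 0 ≤ (1 + 26 * Vol) * (E / L) := by positivity
  have h13 : 2 * C1 * B * (1 + 26 * Vol * (E / L)) ≤ 2 * C1 * (1 + B) * ((1 + 26 * Vol) * (E / L)) := by
    calc 2 * C1 * B * (1 + 26 * Vol * (E / L)) ≤ 2 * C1 * B * ((1 + 26 * Vol) * (E / L)) :=
          mul_le_mul_of_nonneg_left h11 (by positivity)
      _ ≤ 2 * C1 * (1 + B) * ((1 + 26 * Vol) * (E / L)) := by
          apply mul_le_mul_of_nonneg_right _ h12
          nlinarith
  have h14 : (4 * X0 + 4 * I0) * (E / L) ≤ (4 * X0 + 4 * I0 + 1) * (1 + B) * (E / L) := by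
    apply mul_le_mul_of_nonneg_right _ (by positivity)
    nlinarith [mul_nonneg (by positivity : (0:ℝ) ≤ 4 * X0 + 4 * I0 + 1) hB]
  linarith

end Pool.Agent.P2I
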