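import Pool.Agent.helper37.P2.SpecD

set_option autoImplicit false

open scoped ContDiff Topology
open MeasureTheory Filter Set Metric

namespace Pool.Agent.P2

theorem SMM_open (ν : Measure ℂ) (c' : ℝ) (a : ENNReal) : IsOpen {ξ : ℂ | a < ν (ball ξ c')} := by
  rw [Metric.isOpen_iff]
  intro ξ hξ
  have hξ' : a < ν (ball ξ c') := hξ
  have h1 : ball ξ c' = ⋃ n : ℕ, ball ξ (c' - 1 / ((n : ℝ) + 1)) := by
    ext z
    rw [mem_iUnion, mem_ball]
    constructor
    · intro hz
      obtain ⟨n, hn⟩ := exists_nat_one_div_lt (sub_pos.2 hz)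
      refine ⟨n, ?_⟩
      rw [mem_ball]
      linarith
    · rintro ⟨n, hn⟩
      rw [mem_ball] at hn
      have : (0 : ℝ) < 1 / ((n : ℝ) + 1) := by positivity
      linarith
  have hmono : Monotone fun n : ℕ => ball ξ (c' - 1 / ((n : ℝ) + 1)) := by
    intro n m hnm
    apply ball_subset_ball
    have : 1 / ((m : ℝ) + 1) ≤ 1 / ((n : ℝ) + 1) := by
      apply one_div_le_one_div_of_le (by positivity)
      have : (n : ℝ) ≤ (m : ℝ) := by exact_mod_cast hnm
      linarith
    linarith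
  rw [h1, hmono.measure_iUnion, lt_iSup_iff] at hξ'
  obtain ⟨n, hn⟩ := hξ'
  refine ⟨1 / ((n : ℝ) + 1), by positivity, ?_⟩
  intro ξ' hξ'
  show a < ν (ball ξ' c')
  refine hn.trans_le (measure_mono ?_)
  intro z hz
  rw [mem_ball] at hz hξ' ⊢
  calc dist z ξ' ≤ dist z ξ + dist ξ ξ' := dist_triangle _ _ _
    _ = dist z ξ + dist ξ' ξ := by rw [dist_comm ξ ξ']
    _ < c' := by linarith

theorem SMM : SMM_stmt := by
  intro c' hc'
  obtain ⟨t, -, htf, ht⟩ := (isCompact_closedBall (0 : ℂ) 1).elim_finite_subcover_image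
    (b := univ) (c := fun x => ball x (c' / 2)) (fun x _ => isOpen_ball)
    (fun x _ => mem_iUnion₂.2 ⟨x, mem_univ _, mem_ball_self (by positivity)⟩)
  refine ⟨(htf.toFinset.card : ℝ) + 1, by positivity, ?_⟩
  intro ν θ hθ
  constructor
  · have h1 : {ξ : ℂ | ξ ∈ closedBall (0 : ℂ) 1 ∧ ν (ball ξ c') ≤ ENNReal.ofReal θ} =
        closedBall (0 : ℂ) 1 ∩ {ξ : ℂ | ENNReal.ofReal θ < ν (ball ξ c')}ᶜ := by
      ext ξ
      constructor
      · rintro ⟨h2, h3⟩
        exact ⟨h2, fun h4 => absurd h3 (not_le.2 h4)⟩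
      · rintro ⟨h2, h3⟩
        exact ⟨h2, not_lt.1 h3⟩
    rw [h1]
    exact measurableSet_closedBall.inter (SMM_open ν c' _).measurableSet.compl
  · set S : Set ℂ := {ξ : ℂ | ξ ∈ closedBall (0 : ℂ) 1 ∧ ν (ball ξ c') ≤ ENNReal.ofReal θ} with hS
    have h1 : S ⊆ ⋃ x ∈ htf.toFinset, (S ∩ ball x (c' / 2)) := by
      intro ξ hξ
      obtain ⟨x, hx, hx2⟩ := mem_iUnion₂.1 (ht hξ.1)
      exact mem_iUnion₂.2 ⟨x, htf.mem_toFinset.2 hx, hξ, hx2⟩
    calc ν S ≤ ν (⋃ x ∈ htf.toFinset, (S ∩ ball x (c' / 2))) := measure_mono h1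
      _ ≤ ∑ x ∈ htf.toFinset, ν (S ∩ ball x (c' / 2)) := measure_biUnion_finset_le _ _
      _ ≤ ∑ x ∈ htf.toFinset, ENNReal.ofReal θ := by
          refine Finset.sum_le_sum fun x _ => ?_
          by_cases hne : (S ∩ ball x (c' / 2)).Nonempty
          · obtain ⟨ξ, hξ, hξx⟩ := hne
            refine (measure_mono ?_).trans hξ.2
            rintro z ⟨-, hz⟩
            rw [mem_ball] at hz hξx ⊢
            calc dist z ξ ≤ dist z x + dist x ξ := dist_triangle _ _ _
              _ = dist z x + dist ξ x := by rw [dist_comm x ξ]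
              _ < c' := by linarith
          · rw [not_nonempty_iff_eq_empty.1 hne, measure_empty]
            exact bot_le
      _ = ENNReal.ofReal (htf.toFinset.card * θ) := by
          rw [Finset.sum_const, nsmul_eq_mul, ENNReal.ofReal_mul (by positivity),
            ENNReal.ofReal_natCast]
      _ ≤ ENNReal.ofReal (((htf.toFinset.card : ℝ) + 1) * θ) := by
          apply ENNReal.ofReal_le_ofReal
          nlinarith

end Pool.Agent.P2
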