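import Pool.Agent.helper83.P2.SpecX

set_option autoImplicit false

namespace Pool.Agent.P2

open Metric Set Filter Topology Finset

theorem XC2_cs {ι : Type} [Fintype ι] (d : ι → ℝ) :
    ∑ b, |d b| ≤ 2 * (Fintype.card ι : ℝ) * ∑ b, d b ^ 2 + 1 / 8 := by
  have h1 : (∑ b, |d b|) ^ 2 ≤ (Fintype.card ι : ℝ) * ∑ b, |d b| ^ 2 := by
    have := sq_sum_le_card_mul_sum_sq (s := (Finset.univ : Finset ι)) (f := fun b => |d b|)
    simpa using this
  simp only [sq_abs] at h1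
  nlinarith [sq_nonneg (∑ b, |d b| - 1 / 4)]

theorem XC2 (hXFQ : XFQ_stmt) (hXTL : XTL_stmt) (hXAC : XAC_stmt) (hXBD : XBD_stmt) : XC2_stmt := by
  intro ι _ E ν m0 M hE hM
  have hm : m0 ≤ M := by omega
  have tel := hXTL ι ν m0 M hm
  have hM' : (m0 : ℝ) + 64 * (Fintype.card ι : ℝ) ≤ M := by exact_mod_cast hM
  have hq : (0 : ℝ) ≤ (Fintype.card ι : ℝ) := by positivity
  have key : ∀ m i, 3 / 8 - 2 * (Fintype.card ι : ℝ) *
      ∑ b, (Fq ν m (2 * i) b - Fq ν m (2 * i + 1) b) ^ 2 ≤ (bad E ν m i : ℝ) / 4 ^ m := by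
    intro m i
    obtain ⟨f1, f2, -⟩ := hXFQ ι ν m (2 * i)
    have h1 := hXBD ι E ν m i
    have h2 := hXAC ι E (Fq ν m (2 * i)) (Fq ν m (2 * i + 1)) hE f1 f2
    have h3 := XC2_cs (fun b => Fq ν m (2 * i) b - Fq ν m (2 * i + 1) b)
    rw [h1]
    linarith
  have step : ∀ m ∈ Finset.Ico m0 M, 3 / 8 - 2 * (Fintype.card ι : ℝ) *
      ((∑ i ∈ range (2 ^ (M - m - 1)), ∑ b, (Fq ν m (2 * i) b - Fq ν m (2 * i + 1) b) ^ 2) /
        2 ^ (M - m - 1)) ≤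
      (∑ i ∈ range (2 ^ (M - m - 1)), (bad E ν m i : ℝ) / 4 ^ m) / 2 ^ (M - m - 1) := by
    intro m _
    have h1 := sum_le_sum (fun i (_ : i ∈ range (2 ^ (M - m - 1))) => key m i)
    rw [sum_sub_distrib, sum_const, card_range, ← mul_sum, nsmul_eq_mul] at h1
    push_cast at h1
    rw [le_div_iff₀ (by positivity)]
    refine le_trans (le_of_eq ?_) h1
    field_simp
  have tot := sum_le_sum step
  rw [sum_sub_distrib, sum_const, ← mul_sum, Nat.card_Ico, nsmul_eq_mul, Nat.cast_sub hm] at tot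
  have h5 : 2 * (Fintype.card ι : ℝ) * ∑ m ∈ Finset.Ico m0 M,
      (∑ i ∈ range (2 ^ (M - m - 1)), ∑ b, (Fq ν m (2 * i) b - Fq ν m (2 * i + 1) b) ^ 2) /
        2 ^ (M - m - 1) ≤ 2 * (Fintype.card ι : ℝ) * 4 :=
    mul_le_mul_of_nonneg_left tel (by positivity)
  linarith

end Pool.Agent.P2
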