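import Pool.Agent.helper56.P2.SpecW

set_option autoImplicit false

/-!
# Project P2 (MP_063734_an), row `p2:WM1`: integration by parts on the slices of the tube of a graph
-/

open scoped ContDiff Topology ComplexConjugate ENNReal
open MeasureTheory Filter Set Metric MvPolynomial Pool.Agent.helper37.QA

namespace Pool.Agent.P2W

open Pool.Agent.P2

theorem WM1_lap_affine (g : ℂ → ℝ) (z : ℂ) (a : ℝ) (hg : ContDiffAt ℝ 2 g z) :
    lap (fun t => a * g t) z = a * lap g z := by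
  have h1 : (fun t => a * g t) = (a • g) := rfl
  have h2 : ContDiffAt ℝ (2 : ℕ) g z := hg
  unfold lap
  rw [h1, iteratedFDeriv_const_smul_apply h2]
  simp
  ring

theorem WM1_one (hCH1 : P2I.CH1_stmt) (hIB1 : P2I.IB1_stmt) (Ω : Set ℂ) (P Q : ℂ → ℂ) (D : ℝ)
    (hΩ : IsOpen Ω) (hP : DifferentiableOn ℂ P Ω) (hQ : DifferentiableOn ℂ Q Ω)
    (hne : ∀ z ∈ Ω, P z ≠ 0 ∨ Q z ≠ 0) (g : ℂ → ℝ)
    (hg : ∀ z ∈ Ω, g z = (1 / 2) * Complex.normSq (P2I.Wr P Q z) *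
      ((Complex.normSq (P z) + Complex.normSq (Q z)) ^ 2)⁻¹ / D) :
    (∀ z ∈ Ω, g z = lap (fun z => P2I.Up P Q z / D) z) ∧
    ContDiffOn ℝ ∞ (fun z => P2I.Up P Q z / D) Ω ∧
    ∀ χ : ℂ → ℝ, ContDiff ℝ ∞ χ → HasCompactSupport χ → tsupport χ ⊆ Ω →
      ∫ z, χ z * g z = ∫ z, lap χ z * (P2I.Up P Q z / D) := by
  obtain ⟨h1, h2⟩ := hCH1.2 Ω P Q hΩ hP hQ hne
  have h3 : ∀ z ∈ Ω, g z = lap (fun z => P2I.Up P Q z / D) z := by
    intro z hz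
    have h4 : (fun z => P2I.Up P Q z / D) = fun z => D⁻¹ * P2I.Up P Q z := by
      funext z; ring
    have h5 : ContDiffAt ℝ 2 (P2I.Up P Q) z :=
      ((h1 z hz).contDiffAt (hΩ.mem_nhds hz)).of_le (by
        exact WithTop.coe_le_coe.2 (le_top : (2 : ℕ∞) ≤ ⊤))
    rw [h4, WM1_lap_affine _ _ _ h5, h2 z hz, hg z hz]
    unfold P2I.sph
    ring
  have h6 : ContDiffOn ℝ ∞ (fun z => P2I.Up P Q z / D) Ω := h1.div_const D
  refine ⟨h3, h6, ?_⟩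
  intro χ hχ hc hs
  rw [← hIB1 Ω χ (fun z => P2I.Up P Q z / D) hΩ hχ hc hs h6]
  refine integral_congr_ae (Filter.Eventually.of_forall fun z => ?_)
  show χ z * g z = χ z * lap (fun z => P2I.Up P Q z / D) z
  by_cases hz : z ∈ tsupport χ
  · rw [h3 z (hs hz)]
  · rw [image_eq_zero_of_notMem_tsupport hz, zero_mul, zero_mul]

theorem WM1 (hCH1 : P2I.CH1_stmt) (hIB1 : P2I.IB1_stmt) (hWHO : WHO_stmt) : WM1_stmt := by
  intro d f U hd τ κ C0 α hτ hκ hκ1 hW ι c γ hT N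
  have hA : AnalyticOnNhd ℂ (fun p => It f N (gp ι c κ γ p)) {p : ℂ × ℂ | ‖p.1‖ < 1} :=
    (hWHO d f ι c κ γ N hT.hd).1
  have hTB : ∀ p ∈ P2U.TB 1 τ, p ∈ {p : ℂ × ℂ | ‖p.1‖ < 1} := fun p hp => hp.1
  have hPi : ∀ i : Fin 3, AnalyticOnNhd ℂ (fun p => It f N (gp ι c κ γ p) i) {p : ℂ × ℂ | ‖p.1‖ < 1} := by
    intro i p hp
    exact ((ContinuousLinearMap.proj (R := ℂ) (φ := fun _ : Fin 3 => ℂ) i).analyticAt _).comp (hA p hp)
  have hP : AnalyticOnNhd ℂ (gP f N ι c κ γ) {p : ℂ × ℂ | ‖p.1‖ < 1} := hPi 0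
  have hQ : AnalyticOnNhd ℂ (gQ f N ι c κ γ) {p : ℂ × ℂ | ‖p.1‖ < 1} := hPi 1
  have hnz : ∀ p ∈ P2U.TB 1 τ, gP f N ι c κ γ p ≠ 0 ∨ gQ f N ι c κ γ p ≠ 0 := by
    intro p hp
    by_contra hcon
    push Not at hcon
    have h1 := (hW.nz ι c γ hT N p hp).1
    have h2 : It f N (gp ι c κ γ p) 0 = 0 := hcon.1
    have h3 : It f N (gp ι c κ γ p) 1 = 0 := hcon.2
    unfold pq at h1
    rw [h2, h3] at h1
    simp at h1
  -- horizontal slices
  have e1 : ∀ v ξ : ℂ, HasDerivAt (fun ξ : ℂ => ((ξ, v) : ℂ × ℂ)) (1, 0) ξ := fun v ξ =>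
    (hasDerivAt_id ξ).prodMk (hasDerivAt_const ξ v)
  have e2 : ∀ ξ v : ℂ, HasDerivAt (fun v : ℂ => ((ξ, v) : ℂ × ℂ)) (0, 1) v := fun ξ v =>
    (hasDerivAt_const v ξ).prodMk (hasDerivAt_id v)
  have d1 : ∀ G : ℂ × ℂ → ℂ, AnalyticOnNhd ℂ G {p : ℂ × ℂ | ‖p.1‖ < 1} → ∀ v : ℂ, ∀ ξ ∈ ball (0 : ℂ) 1,
      HasDerivAt (fun ξ => G (ξ, v)) (fderiv ℂ G (ξ, v) (1, 0)) ξ := by
    intro G hG v ξ hξ
    have h1 : HasFDerivAt G (fderiv ℂ G (ξ, v)) (ξ, v) :=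
      (hG (ξ, v) (by simpa using hξ)).differentiableAt.hasFDerivAt
    exact h1.comp_hasDerivAt ξ (e1 v ξ)
  have d2 : ∀ G : ℂ × ℂ → ℂ, AnalyticOnNhd ℂ G {p : ℂ × ℂ | ‖p.1‖ < 1} → ∀ v : ℂ, ∀ ξ ∈ ball (0 : ℂ) 1,
      HasDerivAt (fun v => G (ξ, v)) (fderiv ℂ G (ξ, v) (0, 1)) v := by
    intro G hG v ξ hξ
    have h1 : HasFDerivAt G (fderiv ℂ G (ξ, v)) (ξ, v) :=
      (hG (ξ, v) (by simpa using hξ)).differentiableAt.hasFDerivAt
    exact h1.comp_hasDerivAt v (e2 ξ v)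
  refine ⟨?_, ?_, ?_, ?_⟩
  · intro v hv
    refine WM1_one hCH1 hIB1 (ball 0 1) (fun ξ => gP f N ι c κ γ (ξ, v)) (fun ξ => gQ f N ι c κ γ (ξ, v))
      ((d : ℝ) ^ N) isOpen_ball ?_ ?_ ?_ (fun ξ => gt f N ι c κ γ (ξ, v)) ?_
    · exact fun ξ hξ => (d1 _ hP v ξ hξ).differentiableAt.differentiableWithinAt
    · exact fun ξ hξ => (d1 _ hQ v ξ hξ).differentiableAt.differentiableWithinAt
    · exact fun ξ hξ => hnz (ξ, v) ⟨by simpa using hξ, by simpa using hv⟩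
    · intro ξ hξ
      show (1 / 2) * Complex.normSq (w1 (gP f N ι c κ γ) (gQ f N ι c κ γ) (ξ, v)) *
        om (gP f N ι c κ γ) (gQ f N ι c κ γ) (ξ, v) / (d : ℝ) ^ N = _
      have h1 : P2I.Wr (fun ξ => gP f N ι c κ γ (ξ, v)) (fun ξ => gQ f N ι c κ γ (ξ, v)) ξ =
          w1 (gP f N ι c κ γ) (gQ f N ι c κ γ) (ξ, v) := by
        unfold P2I.Wr w1
        rw [(d1 _ hP v ξ hξ).deriv, (d1 _ hQ v ξ hξ).deriv]
      rw [h1]
      rfl
  · intro ξ hξ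
    refine (WM1_one hCH1 hIB1 (ball 0 τ) (fun v => gP f N ι c κ γ (ξ, v)) (fun v => gQ f N ι c κ γ (ξ, v))
      ((d : ℝ) ^ N) isOpen_ball ?_ ?_ ?_ (fun v => (1 / 2) * Complex.normSq (w2 (gP f N ι c κ γ) (gQ f N ι c κ γ) (ξ, v)) *
        om (gP f N ι c κ γ) (gQ f N ι c κ γ) (ξ, v) / (d : ℝ) ^ N) ?_).2.2
    · exact fun v hv => (d2 _ hP v ξ hξ).differentiableAt.differentiableWithinAt
    · exact fun v hv => (d2 _ hQ v ξ hξ).differentiableAt.differentiableWithinAt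
    · exact fun v hv => hnz (ξ, v) ⟨by simpa using hξ, by simpa using hv⟩
    · intro v hv
      have h1 : P2I.Wr (fun v => gP f N ι c κ γ (ξ, v)) (fun v => gQ f N ι c κ γ (ξ, v)) v =
          w2 (gP f N ι c κ γ) (gQ f N ι c κ γ) (ξ, v) := by
        unfold P2I.Wr w2
        rw [(d2 _ hP v ξ hξ).deriv, (d2 _ hQ v ξ hξ).deriv]
      rw [h1]
      rfl
  · have c1 : ContinuousOn (gP f N ι c κ γ) (P2U.TB 1 τ) := hP.continuousOn.mono hTB
    have c2 : ContinuousOn (gQ f N ι c κ γ) (P2U.TB 1 τ) := hQ.continuousOn.mono hTB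
    have c3 : ContinuousOn (fderiv ℂ (gP f N ι c κ γ)) (P2U.TB 1 τ) := hP.fderiv.continuousOn.mono hTB
    have c4 : ContinuousOn (fderiv ℂ (gQ f N ι c κ γ)) (P2U.TB 1 τ) := hQ.fderiv.continuousOn.mono hTB
    have c5 : ContinuousOn (w1 (gP f N ι c κ γ) (gQ f N ι c κ γ)) (P2U.TB 1 τ) :=
      (c2.mul (c3.clm_apply continuousOn_const)).sub (c1.mul (c4.clm_apply continuousOn_const))
    have c6 : ContinuousOn (om (gP f N ι c κ γ) (gQ f N ι c κ γ)) (P2U.TB 1 τ) := by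
      refine ContinuousOn.inv₀ ?_ ?_
      · exact ((Complex.continuous_normSq.comp_continuousOn c1).add
          (Complex.continuous_normSq.comp_continuousOn c2)).pow 2
      · intro p hp
        have h1 := Complex.normSq_nonneg (gP f N ι c κ γ p)
        have h2 := Complex.normSq_nonneg (gQ f N ι c κ γ p)
        rcases hnz p hp with h | h
        · have := Complex.normSq_pos.2 h
          positivity
        · have := Complex.normSq_pos.2 h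
          positivity
    have c7 : ContinuousOn (fun p => (1 / 2) * Complex.normSq (w1 (gP f N ι c κ γ) (gQ f N ι c κ γ) p) *
        om (gP f N ι c κ γ) (gQ f N ι c κ γ) p / (d : ℝ) ^ N) (P2U.TB 1 τ) :=
      ((continuousOn_const.mul (Complex.continuous_normSq.comp_continuousOn c5)).mul c6).div_const _
    exact c7
  · intro p
    show 0 ≤ (1 / 2) * Complex.normSq (w1 (gP f N ι c κ γ) (gQ f N ι c κ γ) p) *
      ((Complex.normSq (gP f N ι c κ γ p) + Complex.normSq (gQ f N ι c κ γ p)) ^ 2)⁻¹ / (d : ℝ) ^ N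
    have := Complex.normSq_nonneg (w1 (gP f N ι c κ γ) (gQ f N ι c κ γ) p)
    positivity

end Pool.Agent.P2W
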