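import Pool.Agent.helper56.P2.SpecU

set_option autoImplicit false

namespace Pool.Agent.P2U

open MeasureTheory Set Filter Topology Metric Complex
open scoped ENNReal ContDiff

noncomputable section

theorem UTSA_pow (n : ℕ) (r : ℝ) : HasDerivAt (fun r : ℝ => (max 0 r) ^ (n + 2))
    (((n + 2 : ℕ) : ℝ) * (max 0 r) ^ (n + 1)) r := by
  rcases lt_trichotomy r 0 with h | h | h
  · have h1 : (fun r : ℝ => (max 0 r) ^ (n + 2)) =ᶠ[𝓝 r] fun _ => 0 := by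
      filter_upwards [gt_mem_nhds h] with s hs
      rw [max_eq_left hs.le]
      simp
    have h2 := (hasDerivAt_const r (0 : ℝ)).congr_of_eventuallyEq h1
    rw [max_eq_left h.le]
    simpa using h2
  · subst h
    rw [hasDerivAt_iff_tendsto_slope_zero]
    have h1 : Tendsto (fun t : ℝ => (max 0 t) ^ (n + 1)) (𝓝[≠] 0)
        (𝓝 (((n + 2 : ℕ) : ℝ) * (max 0 (0 : ℝ)) ^ (n + 1))) := by
      have h2 : Continuous (fun t : ℝ => (max 0 t) ^ (n + 1)) := by fun_prop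
      have h3 := h2.tendsto 0
      simp only [max_self] at h3 ⊢
      rw [zero_pow (by omega)] at h3 ⊢
      rw [mul_zero]
      exact h3.mono_left nhdsWithin_le_nhds
    refine h1.congr' ?_
    filter_upwards [self_mem_nhdsWithin] with t ht
    have ht0 : t ≠ 0 := ht
    rw [zero_add, max_self, zero_pow (by omega), sub_zero, smul_eq_mul]
    rcases le_total t 0 with h4 | h4
    · rw [max_eq_left h4, zero_pow (by omega), zero_pow (by omega), mul_zero]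
    · rw [max_eq_right h4]
      field_simp
      ring
  · have h1 : (fun r : ℝ => (max 0 r) ^ (n + 2)) =ᶠ[𝓝 r] fun r => r ^ (n + 2) := by
      filter_upwards [lt_mem_nhds h] with s hs
      rw [max_eq_right hs.le]
    have h2 := (hasDerivAt_pow (n + 2) r).congr_of_eventuallyEq h1
    rw [max_eq_right h.le]
    simpa using h2

/-- the real inner product of the plane as a linear map -/
def UTSA_L : ℂ →L[ℝ] ℂ →L[ℝ] ℝ := innerSL ℝ

theorem UTSA_L_apply (x ξ : ℂ) : UTSA_L x ξ = inner ℝ x ξ := rfl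

/-- the positive part of `1 - |x|²/R²` -/
def UTSA_m (R : ℝ) (x : ℂ) : ℝ := max 0 (1 - ‖x‖ ^ 2 / R ^ 2)

theorem UTSA_psi (R : ℝ) (x : ℂ) :
    HasFDerivAt (fun x : ℂ => 1 - ‖x‖ ^ 2 / R ^ 2) ((-(2 / R ^ 2)) • UTSA_L x) x := by
  have h1 := (hasStrictFDerivAt_norm_sq x).hasFDerivAt
  have h2 := (h1.mul_const ((R ^ 2)⁻¹)).const_sub 1
  have h3 : (fun x : ℂ => 1 - ‖x‖ ^ 2 / R ^ 2) = fun x : ℂ => 1 - ‖x‖ ^ 2 * (R ^ 2)⁻¹ := by
    funext y; rw [div_eq_mul_inv]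
  rw [h3]
  refine h2.congr_fderiv ?_
  ext ξ
  change (-((R ^ 2)⁻¹ • 2 • (innerSL ℝ) x)) ξ = (-(2 / R ^ 2)) * (innerSL ℝ x) ξ
  simp only [_root_.neg_apply, _root_.smul_apply, smul_eq_mul, nsmul_eq_mul]
  push_cast
  ring

theorem UTSA_mpow (R : ℝ) (n : ℕ) (x : ℂ) :
    HasFDerivAt (fun x : ℂ => (UTSA_m R x) ^ (n + 2))
      ((-(2 / R ^ 2) * (((n + 2 : ℕ) : ℝ) * (UTSA_m R x) ^ (n + 1))) • UTSA_L x) x := by
  have h1 := (UTSA_pow n (1 - ‖x‖ ^ 2 / R ^ 2)).comp_hasFDerivAt x (UTSA_psi R x)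
  have h2 : (fun x : ℂ => (UTSA_m R x) ^ (n + 2)) =
      (fun r : ℝ => (max 0 r) ^ (n + 2)) ∘ (fun x : ℂ => 1 - ‖x‖ ^ 2 / R ^ 2) := rfl
  rw [h2]
  refine h1.congr_fderiv ?_
  rw [smul_smul]
  congr 1
  unfold UTSA_m
  ring

theorem UTSA_fderiv (R : ℝ) : fderiv ℝ (XS R) =
    fun x => (-(6 / R ^ 2) * (UTSA_m R x) ^ 2) • UTSA_L x := by
  funext x
  have h1 := (UTSA_mpow R 1 x).fderiv
  have h2 : XS R = fun x : ℂ => (UTSA_m R x) ^ (1 + 2) := rfl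
  rw [h2, h1]
  congr 1
  push_cast
  ring

theorem UTSA_fderiv2 (R : ℝ) (x ξ : ℂ) : fderiv ℝ (fderiv ℝ (XS R)) x ξ ξ =
    24 / R ^ 4 * UTSA_m R x * (inner ℝ x ξ) ^ 2 - 6 / R ^ 2 * (UTSA_m R x) ^ 2 * ‖ξ‖ ^ 2 := by
  rw [UTSA_fderiv]
  have h1 : HasFDerivAt (fun x : ℂ => -(6 / R ^ 2) * (UTSA_m R x) ^ 2)
      ((-(6 / R ^ 2)) • ((-(2 / R ^ 2) * (((0 + 2 : ℕ) : ℝ) * (UTSA_m R x) ^ (0 + 1))) • UTSA_L x)) x :=
    (UTSA_mpow R 0 x).const_mul _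
  have h2 : HasFDerivAt (fun x : ℂ => UTSA_L x) UTSA_L x := UTSA_L.hasFDerivAt
  have h3 : fderiv ℝ (fun x : ℂ => (-(6 / R ^ 2) * (UTSA_m R x) ^ 2) • UTSA_L x) x = _ :=
    (h1.smul h2).fderiv
  rw [h3]
  simp only [_root_.add_apply, _root_.smul_apply,
    ContinuousLinearMap.smulRight_apply, UTSA_L_apply, smul_eq_mul, real_inner_self_eq_norm_sq]
  push_cast
  ring

theorem UTSA_lz (R : ℝ) (x : ℂ) : Lz (XS R) x =
    6 / R ^ 4 * UTSA_m R x * ‖x‖ ^ 2 - 3 / R ^ 2 * (UTSA_m R x) ^ 2 := by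
  unfold Lz
  rw [UTSA_fderiv2, UTSA_fderiv2]
  have h1 : (inner ℝ x (1 : ℂ) : ℝ) = x.re := by
    rw [Complex.inner]; simp
  have h2 : (inner ℝ x I : ℝ) = x.im := by
    rw [Complex.inner]; simp
  rw [h1, h2, norm_one, Complex.norm_I, Complex.sq_norm, Complex.normSq_apply]
  ring

theorem UTSA_m_nonneg (R : ℝ) (x : ℂ) : 0 ≤ UTSA_m R x := le_max_left _ _

theorem UTSA_m_le (R : ℝ) (x : ℂ) : UTSA_m R x ≤ 1 := by
  unfold UTSA_m
  apply max_le (by norm_num)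
  have : 0 ≤ ‖x‖ ^ 2 / R ^ 2 := by positivity
  linarith

theorem UTSA_m_zero {R : ℝ} (hR : 0 < R) {x : ℂ} (hx : R ≤ ‖x‖) : UTSA_m R x = 0 := by
  unfold UTSA_m
  apply max_eq_left
  have h1 : R ^ 2 ≤ ‖x‖ ^ 2 := pow_le_pow_left₀ hR.le hx 2
  have h2 : 1 ≤ ‖x‖ ^ 2 / R ^ 2 := (one_le_div (by positivity)).2 h1
  linarith

theorem UTSA_contDiff (R : ℝ) : ContDiff ℝ 2 (XS R) := by
  have h1 : Differentiable ℝ (XS R) := fun x => (UTSA_mpow R 1 x).differentiableAt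
  have hm : Continuous (UTSA_m R) := by
    unfold UTSA_m
    fun_prop
  have hk : ContDiff ℝ 1 (fun x : ℂ => (UTSA_m R x) ^ (0 + 2)) := by
    rw [contDiff_one_iff_fderiv]
    refine ⟨fun x => (UTSA_mpow R 0 x).differentiableAt, ?_⟩
    have he : fderiv ℝ (fun x : ℂ => (UTSA_m R x) ^ (0 + 2)) =
        fun x => (-(2 / R ^ 2) * (((0 + 2 : ℕ) : ℝ) * (UTSA_m R x) ^ (0 + 1))) • UTSA_L x := by
      funext x
      exact (UTSA_mpow R 0 x).fderiv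
    rw [he]
    exact (continuous_const.mul (continuous_const.mul (hm.pow _))).smul UTSA_L.continuous
  have h2 : ContDiff ℝ 1 (fderiv ℝ (XS R)) := by
    rw [UTSA_fderiv]
    exact (contDiff_const.mul hk).smul UTSA_L.contDiff
  have h3 : ContDiff ℝ (1 + 1) (XS R) := by
    rw [contDiff_succ_iff_fderiv]
    exact ⟨h1, by simp, h2⟩
  have h4 : (1 + 1 : WithTop ℕ∞) = 2 := by norm_num
  rw [h4] at h3
  exact h3

theorem UTSA : UTSA_stmt := by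
  intro R hR
  refine ⟨UTSA_contDiff R, ?_, ?_, ?_, ?_, ?_, ?_⟩
  · intro x
    exact ⟨pow_nonneg (UTSA_m_nonneg R x) 3, pow_le_one₀ (UTSA_m_nonneg R x) (UTSA_m_le R x)⟩
  · intro x hx
    have h0 := UTSA_m_zero hR hx
    refine ⟨?_, ?_, ?_⟩
    · change (UTSA_m R x) ^ 3 = 0
      rw [h0]; norm_num
    · rw [UTSA_fderiv]
      simp only [h0]
      simp
    · rw [UTSA_lz, h0]
      ring
  · intro x hx
    have h1 : ‖x‖ ^ 2 ≤ (2 / 3 * R) ^ 2 := pow_le_pow_left₀ (norm_nonneg _) hx 2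
    have h2 : ‖x‖ ^ 2 / R ^ 2 ≤ 4 / 9 := by
      rw [div_le_iff₀ (by positivity)]
      linarith
    have h3 : 1 / 2 ≤ UTSA_m R x := le_max_of_le_right (by linarith)
    calc (1 : ℝ) / 8 = (1 / 2) ^ 3 := by norm_num
      _ ≤ (UTSA_m R x) ^ 3 := pow_le_pow_left₀ (by norm_num) h3 3
  · intro x hx
    have h1 : ‖x‖ ^ 2 ≤ (R / 2) ^ 2 := pow_le_pow_left₀ (norm_nonneg _) hx 2
    have h2 : ‖x‖ ^ 2 / R ^ 2 ≤ 1 / 4 := by
      rw [div_le_iff₀ (by positivity)]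
      linarith
    have h3 : 3 / 4 ≤ UTSA_m R x := le_max_of_le_right (by linarith)
    calc (2 : ℝ) / 5 ≤ (3 / 4) ^ 3 := by norm_num
      _ ≤ (UTSA_m R x) ^ 3 := pow_le_pow_left₀ (by norm_num) h3 3
  · intro x ξ
    rw [UTSA_fderiv]
    simp only [_root_.smul_apply, UTSA_L_apply, smul_eq_mul]
    rcases le_total R ‖x‖ with h | h
    · rw [UTSA_m_zero hR h]
      have : 0 ≤ 6 / R * ‖ξ‖ := by positivity
      simpa using this
    · have h1 : |(inner ℝ x ξ : ℝ)| ≤ R * ‖ξ‖ :=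
        (abs_real_inner_le_norm x ξ).trans (mul_le_mul_of_nonneg_right h (norm_nonneg _))
      have h2 : (UTSA_m R x) ^ 2 ≤ 1 := pow_le_one₀ (UTSA_m_nonneg R x) (UTSA_m_le R x)
      rw [abs_mul, abs_mul, abs_neg, abs_of_nonneg (by positivity : 0 ≤ 6 / R ^ 2),
        abs_of_nonneg (by positivity : 0 ≤ (UTSA_m R x) ^ 2)]
      calc 6 / R ^ 2 * (UTSA_m R x) ^ 2 * |(inner ℝ x ξ : ℝ)| ≤ 6 / R ^ 2 * 1 * (R * ‖ξ‖) := by
            apply mul_le_mul _ h1 (abs_nonneg _) (by positivity)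
            exact mul_le_mul_of_nonneg_left h2 (by positivity)
        _ = 6 / R * ‖ξ‖ := by field_simp
  · intro x
    rw [UTSA_lz]
    have hm0 := UTSA_m_nonneg R x
    have hm1 := UTSA_m_le R x
    have hR2 : 0 < R ^ 2 := by positivity
    have hy : UTSA_m R x * (‖x‖ ^ 2 / R ^ 2) ≤ 1 := by
      rcases le_total R ‖x‖ with h | h
      · rw [UTSA_m_zero hR h]; norm_num
      · have h1 : ‖x‖ ^ 2 / R ^ 2 ≤ 1 := by
          rw [div_le_one hR2]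
          exact pow_le_pow_left₀ (norm_nonneg _) h 2
        exact mul_le_one₀ hm1 (by positivity) h1
    have hy0 : 0 ≤ UTSA_m R x * (‖x‖ ^ 2 / R ^ 2) := by positivity
    have h2 : (UTSA_m R x) ^ 2 ≤ 1 := pow_le_one₀ hm0 hm1
    have h20 : 0 ≤ (UTSA_m R x) ^ 2 := by positivity
    have e : 6 / R ^ 4 * UTSA_m R x * ‖x‖ ^ 2 - 3 / R ^ 2 * (UTSA_m R x) ^ 2 =
        1 / R ^ 2 * (6 * (UTSA_m R x * (‖x‖ ^ 2 / R ^ 2)) - 3 * (UTSA_m R x) ^ 2) := by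
      field_simp
    have e2 : 6 / R ^ 2 = 1 / R ^ 2 * 6 := by ring
    rw [e, abs_mul, abs_of_nonneg (by positivity : 0 ≤ 1 / R ^ 2), e2]
    apply mul_le_mul_of_nonneg_left _ (by positivity)
    rw [abs_le]
    constructor <;> linarith

end

end Pool.Agent.P2U
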