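import Pool.Agent.helper83.P2.SpecV

set_option autoImplicit false

/-!
# Project P2 (MP_063734_an), row `p2:VP1`: the main inequality at a fixed scale
-/

open scoped ContDiff Topology
open MeasureTheory Filter Set Metric MvPolynomial Pool.Agent.helper37.QA Pool.Agent.P2

namespace Pool.Agent.P2V

open Pool.Agent.P2

/-! ### Common facts (also used in row `VP2`) -/

theorem VP1_near {r : ℝ} (j : Fin 3) (v : ℂ) (hv : ‖v‖ < r) : Near r (adE one3 2 j v) := by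
  intro k l
  unfold adE
  by_cases h : k = 2 ∧ l = j
  · rw [if_pos h, add_sub_cancel_left]
    exact hv
  · rw [if_neg h, add_zero, sub_self, norm_zero]
    exact (norm_nonneg v).trans_lt hv

theorem VP1_rad {r r' : ℝ} {U' U : Set (PP 2)} (h : Rad r U' U) (hr : r' ≤ r) : Rad r' U' U :=
  fun A hA => h A fun i j => (hA i j).trans_le hr

theorem VP1_Av0 (ι : Fin 2) (Y : ℂ → E3) : Av ι 0 Y = Y := by
  funext z
  show mv (adE one3 2 ι.castSucc 0) (Y z) = Y z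
  have h1 : adE one3 2 ι.castSucc 0 = one3 := by
    funext k l
    unfold adE
    simp
  rw [h1]
  funext i
  unfold mv one3
  simp

theorem VP1_gp (ι : Fin 2) (c : ℂ) (κ : ℝ) (γ : ℂ → ℂ) (hγ : DifferentiableOn ℂ γ (ball 0 1)) :
    ContDiffOn ℝ ∞ (gp ι c κ γ) {p : ℂ × ℂ | ‖p.1‖ < 1} := by
  have h1 : ContDiffOn ℝ ∞ γ (ball 0 1) :=
    (hγ.contDiffOn isOpen_ball : ContDiffOn ℂ ∞ γ (ball 0 1)).restrict_scalars ℝ
  have h2 : ContDiffOn ℝ ∞ (fun p : ℂ × ℂ => γ p.1) {p : ℂ × ℂ | ‖p.1‖ < 1} :=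
    h1.comp contDiff_fst.contDiffOn (fun p hp => by simpa using hp)
  have h3 : ContDiffOn ℝ ∞ (fun p : ℂ × ℂ => γ p.1 + p.2) {p : ℂ × ℂ | ‖p.1‖ < 1} :=
    h2.add contDiff_snd.contDiffOn
  have h4 : ContDiffOn ℝ ∞ (fun p : ℂ × ℂ => c + (κ : ℂ) * p.1) {p : ℂ × ℂ | ‖p.1‖ < 1} :=
    (contDiff_const.add (contDiff_const.mul contDiff_fst)).contDiffOn
  rw [contDiffOn_pi]
  intro i
  by_cases hι : ι = 0
  · have h5 : ∀ p, gp ι c κ γ p = ![1, c + κ * p.1, γ p.1 + p.2] := fun p => by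
      unfold gp cht
      rw [if_pos hι]
    fin_cases i
    · exact contDiffOn_const.congr fun p _ => by rw [h5]; rfl
    · exact h4.congr fun p _ => by rw [h5]; rfl
    · exact h3.congr fun p _ => by rw [h5]; rfl
  · have h5 : ∀ p, gp ι c κ γ p = ![c + κ * p.1, 1, γ p.1 + p.2] := fun p => by
      unfold gp cht
      rw [if_neg hι]
    fin_cases i
    · exact h4.congr fun p _ => by rw [h5]; rfl
    · exact contDiffOn_const.congr fun p _ => by rw [h5]; rfl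
    · exact h3.congr fun p _ => by rw [h5]; rfl

theorem VP1_eta {ξ : ℂ} (h : eta ξ ≠ 0) : ‖ξ‖ < 1 := by
  have h1 : 0 < 5 - 8 * Complex.normSq ξ := by
    by_contra hcon
    push Not at hcon
    exact h (Real.smoothTransition.zero_of_nonpos hcon)
  rw [Complex.normSq_eq_norm_sq] at h1
  nlinarith [norm_nonneg ξ]

/-- the tubes of the islands of `Y` are in the cone of `U` -/
theorem VP1_tube (hVTR : VTR_stmt) {d : ℕ} (f : Endo 2 d) (U : Set (PP 2)) (hd : 2 ≤ d) (hU : Good0 f U)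
    {r κ s : ℝ} (hRad : Rad r (f.map '' closure U) U) (hκ : 0 < κ) (hs : 0 < s) (hsr : 16 * s ≤ r)
    {Y : ℂ → E3} (hY : Dsc (f.map '' closure U) Y) :
    (∀ (ι : Fin 2), ∀ v ∈ ball (0 : ℂ) (16 * s), ∀ z ∈ ball (0 : ℂ) 1, Av ι v Y z ∈ cone U) ∧
    ∀ (ι : Fin 2) (c : ℂ) (g γ : ℂ → ℂ), Is0 Y ι c κ g γ →
      ∀ ξ ∈ ball (0 : ℂ) 1, ∀ v ∈ ball (0 : ℂ) (16 * s), gp ι c κ γ (ξ, v) ∈ cone U := by
  have h1 : ∀ (ι : Fin 2), ∀ v ∈ ball (0 : ℂ) (16 * s), ∀ z ∈ ball (0 : ℂ) 1, Av ι v Y z ∈ cone U := by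
    intro ι v hv z hz
    rw [mem_ball_zero_iff] at hv
    exact hRad _ (VP1_near _ v (hv.trans_le hsr)) _ (hY.2 z hz)
  refine ⟨h1, ?_⟩
  intro ι c g γ hI ξ hξ v hv
  exact ((hVTR d f U hd hU 0 (16 * s) κ Y ι c g γ (by positivity) hκ hY.1 (h1 ι) hI).2.2 ξ hξ v hv).1

/-- continuity and integrability of the local functionals -/
theorem VP1_Dj (hVPH : VPH_stmt) {d : ℕ} (f : Endo 2 d) (U : Set (PP 2)) {CA CP CJ κ Λ : ℝ}
    (hκ : 0 < κ) (hκ1 : κ ≤ 1 / 10) (hΛ : 0 ≤ Λ)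
    (hA : ∀ (Λ : ℝ) (m N : ℕ), 0 ≤ Λ → m ≤ N → Adm f U N (Psf f Λ m N) ((CA + Λ) * (m + 1)))
    (hP : ∀ (Λ : ℝ) (m N : ℕ) (r : ℝ) (ι : Fin 2) (c : ℂ) (γ : ℂ → ℂ), 0 ≤ Λ → m ≤ N → 0 < r → r ≤ 1 / 4 → ‖c‖ ≤ 2 →
      DifferentiableOn ℂ γ (ball 0 1) → (∀ ξ ∈ ball (0 : ℂ) 1, ∀ v ∈ ball (0 : ℂ) r, gp ι c κ γ (ξ, v) ∈ cone U) →
      ContDiffOn ℝ ∞ (Th f Λ m N ι c κ γ) (ball 0 (9 / 10) ×ˢ ball 0 r) ∧ ContinuousOn (Lf f m (Λ * m) ι c κ γ) (ball 0 (9 / 10) ×ˢ ball 0 r) ∧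
      (∀ p ∈ ball (0 : ℂ) (9 / 10) ×ˢ ball (0 : ℂ) r, |Th f Λ m N ι c κ γ p| ≤ (CP + Λ) * (m + 1) ∧ 0 ≤ Lf f m (Λ * m) ι c κ γ p ∧
        Lf f m (Λ * m) ι c κ γ p ≤ Psf f Λ m N (gp ι c κ γ p) - Th f Λ m N ι c κ γ p + CP) ∧
      ∀ (Y : ℂ → E3) (g : ℂ → ℂ), DifferentiableOn ℂ Y (ball 0 1) → Is0 Y ι c κ g γ → ∀ ξ ∈ ball (0 : ℂ) (9 / 10), pv f Λ m N (Y (g ξ)) (deriv Y (g ξ)) ≤ Th f Λ m N ι c κ γ (ξ, 0) + CP)
    (hJ : ∀ (N : ℕ) (r κ : ℝ) (ι : Fin 2) (c : ℂ) (γ : ℂ → ℂ), 0 < r → r ≤ 1 / 4 → 0 < κ → κ ≤ 1 / 10 → ‖c‖ ≤ 2 →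
      DifferentiableOn ℂ γ (ball 0 1) → (∀ ξ ∈ ball (0 : ℂ) 1, ∀ v ∈ ball (0 : ℂ) r, gp ι c κ γ (ξ, v) ∈ cone U) →
      (∀ p, 0 ≤ gt f N ι c κ γ p) ∧ ContinuousOn (gt f N ι c κ γ) (ball 0 1 ×ˢ ball 0 r) ∧ (∀ v ∈ ball (0 : ℂ) r, Ja f N (fun _ => 1) ι c κ γ v ≤ CJ) ∧
      (∀ Θ : ℂ × ℂ → ℝ, ContinuousOn Θ (ball 0 (9 / 10) ×ˢ ball 0 r) → ContinuousOn (Ja f N Θ ι c κ γ) (ball 0 r) ∧
        ∀ v ∈ ball (0 : ℂ) r, Integrable (fun ξ => eta ξ ^ 2 * (Θ (ξ, v) * gt f N ι c κ γ (ξ, v)))) ∧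
      (∀ p ∈ ball (0 : ℂ) 1 ×ˢ ball (0 : ℂ) r, 1 ≤ nq (gp ι c κ γ p) ∧ nq (gp ι c κ γ p) ≤ CJ) ∧ ∀ ξ ∈ ball (0 : ℂ) (9 / 10), ‖deriv γ ξ‖ ≤ CJ)
    {s : ℝ} (hs : 0 < s) (hs1 : 16 * s ≤ 1 / 4) {m N : ℕ} (hmN : m ≤ N) (ι : Fin 2) (c : ℂ) (γ : ℂ → ℂ) (hc : ‖c‖ ≤ 2)
    (hγ : DifferentiableOn ℂ γ (ball 0 1))
    (ht : ∀ ξ ∈ ball (0 : ℂ) 1, ∀ v ∈ ball (0 : ℂ) (16 * s), gp ι c κ γ (ξ, v) ∈ cone U) :
    ContDiffOn ℝ ∞ (fun p => Psf f Λ m N (gp ι c κ γ p)) (ball 0 (9 / 10) ×ˢ ball 0 (16 * s)) ∧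
    ContDiffOn ℝ ∞ (Th f Λ m N ι c κ γ) (ball 0 (9 / 10) ×ˢ ball 0 (16 * s)) ∧
    ContinuousOn (Ja f N (fun p => Psf f Λ m N (gp ι c κ γ p)) ι c κ γ) (ball 0 (16 * s)) ∧
    ContinuousOn (Ja f N (Th f Λ m N ι c κ γ) ι c κ γ) (ball 0 (16 * s)) ∧
    ∀ ρ : ℝ, 0 < ρ → ρ < 16 * s → (∫ v, phr ρ v * Dj f Λ m N ι c κ γ v) =
      (∫ v, phr ρ v * Ja f N (fun p => Psf f Λ m N (gp ι c κ γ p)) ι c κ γ v) - ∫ v, phr ρ v * Ja f N (Th f Λ m N ι c κ γ) ι c κ γ v := by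
  have hsub : (ball (0 : ℂ) (9 / 10) ×ˢ ball (0 : ℂ) (16 * s)) ⊆ {p : ℂ × ℂ | ‖p.1‖ < 1} := by
    intro p hp
    have h1 := hp.1
    rw [mem_ball_zero_iff] at h1
    show ‖p.1‖ < 1
    linarith
  have h1 : ContDiffOn ℝ ∞ (fun p => Psf f Λ m N (gp ι c κ γ p)) (ball 0 (9 / 10) ×ˢ ball 0 (16 * s)) := by
    refine (hA Λ m N hΛ hmN).1.comp ((VP1_gp ι c κ γ hγ).mono hsub) ?_
    intro p hp
    exact ht p.1 (by simpa using hsub hp) p.2 hp.2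
  have h2 := (hP Λ m N (16 * s) ι c γ hΛ hmN (by positivity) hs1 hc hγ ht).1
  obtain ⟨_, _, _, h3, _, _⟩ := hJ N (16 * s) κ ι c γ (by positivity) hs1 hκ hκ1 hc hγ ht
  have h4 := (h3 _ h1.continuousOn).1
  have h5 := (h3 _ h2.continuousOn).1
  refine ⟨h1, h2, h4, h5, ?_⟩
  intro ρ hρ hρs
  have i1 := hVPH.2.2.2 ρ (16 * s) _ hρ hρs h4
  have i2 := hVPH.2.2.2 ρ (16 * s) _ hρ hρs h5
  rw [← integral_sub i1 i2]
  refine integral_congr_ae (Filter.Eventually.of_forall fun v => ?_)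
  show phr ρ v * Dj f Λ m N ι c κ γ v = _
  unfold Dj
  ring

theorem VP1 (hRAD : RAD_stmt) (hVPH : VPH_stmt) (hVAD : VAD_stmt) (hVGL : VGL_stmt) (hVLC : VLC_stmt) (hVJA : VJA_stmt) (hVTR : VTR_stmt) (hVCP : VCP_stmt) (hVGT : VGT_stmt) (hVEN : VEN_stmt) : VP1_stmt := by
  intro d f U r κ Λ hd hU hr hr1 hRad hκ hκ1 hΛ
  obtain ⟨CA, hCA, hA⟩ := hVAD d f U hd hU
  obtain ⟨CL, α, hCL, hα, hα1, hL⟩ := hVLC d f U hd hU
  obtain ⟨CP, hCP, hP⟩ := hVCP d f U κ hd hU hκ hκ1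
  obtain ⟨CJ, hCJ, hJ⟩ := hVJA d f U hd hU
  set B0 : ℝ := CA + CP + Λ with hB0
  have hB01 : 1 ≤ B0 := by linarith
  refine ⟨4 * CL * B0, α, by nlinarith, hα, ?_⟩
  intro s hs hsr
  have hs1 : 16 * s ≤ 1 / 4 := by linarith
  obtain ⟨CG, hCG, hG⟩ := hVGL d f U (16 * s) hd hU (by positivity) (by linarith) (VP1_rad hRad hsr)
  refine ⟨CG * B0, by nlinarith, ?_⟩
  intro m N Y ι n A W δ K hmN hY hmass hι hFam hW hδ hδs hK
  obtain ⟨hAv, htube⟩ := VP1_tube hVTR f U hd hU hRad hκ hs hsr hY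
  have hm0 : (0 : ℝ) ≤ m := Nat.cast_nonneg m
  have hAdm := hA Λ m N hΛ hmN
  have hmass1 : CG ≤ mass f N Y := le_trans (by nlinarith) hmass
  have hmpos : 0 < mass f N Y := by linarith
  set B : ℝ := B0 * (m + 1) with hB
  have hBA : (CA + Λ) * ((m : ℝ) + 1) ≤ B := by
    rw [hB]
    exact mul_le_mul_of_nonneg_right (by linarith) (by positivity)
  have hBP : (CP + Λ) * ((m : ℝ) + 1) ≤ B := by
    rw [hB]
    exact mul_le_mul_of_nonneg_right (by linarith) (by positivity)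
  have hBA1 : 1 ≤ (CA + Λ) * ((m : ℝ) + 1) := by nlinarith
  have hB1 : 1 ≤ B := hBA1.trans hBA
  -- the island inequality
  have key : ∀ a, (∫ v, phr (2 * s) v * Dj f Λ m N ι (A a).c κ (A a).γ v) ≤
      (∫ v, phr δ v * Dj f Λ m N ι (A a).c κ (A a).γ v) +
      (∫ v, K v * ∫ ξ, eta ξ ^ 2 * Ge f N (fun p => Psf f Λ m N (gp ι (A a).c κ (A a).γ p)) ι (A a).c κ (A a).γ (ξ, v)) +
      4 * CL * B * s ^ α := by
    intro a
    have hI : Is0 Y ι (A a).c κ (A a).g (A a).γ := by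
      have := (hFam.1 a).2
      rwa [hι a] at this
    have hc := (hFam.1 a).1
    have hγ : DifferentiableOn ℂ (A a).γ (ball 0 1) := hI.2.2.1
    have ht := htube ι (A a).c (A a).g (A a).γ hI
    obtain ⟨s1, s2, _, _, s5⟩ := VP1_Dj hVPH f U hκ hκ1 hΛ hA hP hJ hs hs1 hmN ι (A a).c (A a).γ hc hγ ht
    have h8 : (ball (0 : ℂ) (4 * (2 * s))) ⊆ ball 0 (16 * s) := ball_subset_ball (by linarith)
    have hsub : (ball (0 : ℂ) (9 / 10) ×ˢ ball (0 : ℂ) (4 * (2 * s))) ⊆ ball 0 (9 / 10) ×ˢ ball 0 (16 * s) :=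
      prod_mono subset_rfl h8
    have ht8 : ∀ ξ ∈ ball (0 : ℂ) 1, ∀ v ∈ ball (0 : ℂ) (4 * (2 * s)), gp ι (A a).c κ (A a).γ (ξ, v) ∈ cone U :=
      fun ξ hξ v hv => ht ξ hξ v (h8 hv)
    have l1 := hL (2 * s) δ κ B K N ι (A a).c (A a).γ (fun p => Psf f Λ m N (gp ι (A a).c κ (A a).γ p))
      (by positivity) (by linarith) hδ (by linarith) hK hκ hκ1 hc (by linarith) hγ ht8 (s1.mono hsub)
      (fun p hp => by
        refine (hAdm.2.1 _ (ht8 p.1 ?_ p.2 hp.2)).trans hBA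
        have h9 := hp.1
        rw [mem_ball_zero_iff] at h9 ⊢
        linarith)
    have l2 := hL (2 * s) δ κ B K N ι (A a).c (A a).γ (Th f Λ m N ι (A a).c κ (A a).γ)
      (by positivity) (by linarith) hδ (by linarith) hK hκ hκ1 hc (by linarith) hγ ht8 (s2.mono hsub)
      (fun p hp => ((hP Λ m N (16 * s) ι (A a).c (A a).γ hΛ hmN (by positivity) hs1 hc hγ ht).2.2.1 p (hsub hp)).1.trans hBP)
    have l3 : 0 ≤ ∫ v, K v * ∫ ξ, eta ξ ^ 2 * Ge f N (Th f Λ m N ι (A a).c κ (A a).γ) ι (A a).c κ (A a).γ (ξ, v) := by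
      refine integral_nonneg fun v => ?_
      show 0 ≤ K v * ∫ ξ, eta ξ ^ 2 * Ge f N (Th f Λ m N ι (A a).c κ (A a).γ) ι (A a).c κ (A a).γ (ξ, v)
      by_cases hv : 2 * s ≤ ‖v‖
      · rw [hK.2.1 v hv, zero_mul]
      · push Not at hv
        refine mul_nonneg (hK.2.2.1 v) (integral_nonneg fun ξ => ?_)
        show 0 ≤ eta ξ ^ 2 * Ge f N (Th f Λ m N ι (A a).c κ (A a).γ) ι (A a).c κ (A a).γ (ξ, v)
        by_cases he : eta ξ = 0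
        · rw [he]
          simp
        · refine mul_nonneg (sq_nonneg _) ?_
          refine hVGT d f U hd hU Λ κ (16 * s) m N ι (A a).c (A a).γ (by positivity) hγ ht (ξ, v) ⟨?_, ?_⟩
          · simpa using VP1_eta he
          · show v ∈ ball (0 : ℂ) (16 * s)
            rw [mem_ball_zero_iff]
            linarith
    have l4 : CL * B * (2 * s) ^ α ≤ 2 * CL * B * s ^ α := by
      rw [Real.mul_rpow (by norm_num) hs.le]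
      have h9 : (2 : ℝ) ^ α ≤ 2 := by
        calc (2 : ℝ) ^ α ≤ 2 ^ (1 : ℝ) := Real.rpow_le_rpow_of_exponent_le (by norm_num) hα1
          _ = 2 := Real.rpow_one 2
      have h10 : 0 ≤ s ^ α := Real.rpow_nonneg hs.le α
      have h11 : 0 ≤ CL * B := by positivity
      nlinarith [mul_le_mul_of_nonneg_right h9 (mul_nonneg h11 h10)]
    rw [s5 (2 * s) (by positivity) (by linarith), s5 δ hδ (by linarith)]
    have l5 := (abs_le.1 l1).2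
    have l6 := (abs_le.1 l2).1
    linarith
  -- the sum over the islands
  have hsum : ∑ a, W a * (∫ v, phr (2 * s) v * Dj f Λ m N ι (A a).c κ (A a).γ v) ≤
      (∑ a, W a * (∫ v, phr δ v * Dj f Λ m N ι (A a).c κ (A a).γ v)) +
      (∑ a, W a * (∫ v, K v * ∫ ξ, eta ξ ^ 2 * Ge f N (fun p => Psf f Λ m N (gp ι (A a).c κ (A a).γ p)) ι (A a).c κ (A a).γ (ξ, v))) +
      4 * CL * B * s ^ α * ∑ a, W a := by
    rw [Finset.mul_sum, ← Finset.sum_add_distrib, ← Finset.sum_add_distrib]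
    refine Finset.sum_le_sum fun a _ => ?_
    have := mul_le_mul_of_nonneg_left (key a) (hW a).1
    linarith
  have hen := hVEN d f U hd hU N (Psf f Λ m N) ((CA + Λ) * (m + 1)) s κ Y ι n A W K hAdm hs hκ hY.1 (hAv ι) hι hFam hW
    hK.1.continuous hK.2.2.1 hK.2.1
  have h16 : 16 * s / 8 = 2 * s := by ring
  have hgl := hG N (Psf f Λ m N) ((CA + Λ) * (m + 1)) δ K Y ι hAdm hBA1 hY hmass1 hδ (by linarith) (by rw [h16]; exact hK)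
  rw [h16] at hgl
  have hgl' := (abs_le.1 hgl).1
  set E : ℝ := ∫ v, K v * ∫ z, eta z ^ 2 * Gn f N (Psf f Λ m N) ι v Y z with hE
  set P1 : ℝ := ∫ v, phr (2 * s) v * Jf f N (Psf f Λ m N) (Av ι v Y) with hP1
  set P2 : ℝ := ∫ v, phr δ v * Jf f N (Psf f Λ m N) (Av ι v Y) with hP2
  have hE2 : E ≤ mass f N Y * (P1 - P2) + CG * B0 * (m + 1) * (mass f N Y) ^ (1 / 2 : ℝ) := by
    have e1 : (mass f N Y)⁻¹ * E ≤ (P1 - P2) + CG * ((CA + Λ) * (m + 1)) * (mass f N Y) ^ (-(1 / 2) : ℝ) := by linarith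
    have e2 := mul_le_mul_of_nonneg_left e1 hmpos.le
    rw [← mul_assoc, mul_inv_cancel₀ hmpos.ne', one_mul] at e2
    have e3 : mass f N Y * (mass f N Y) ^ (-(1 / 2) : ℝ) = (mass f N Y) ^ (1 / 2 : ℝ) := by
      nth_rewrite 1 [← Real.rpow_one (mass f N Y)]
      rw [← Real.rpow_add hmpos]
      norm_num
    have e4 : 0 ≤ (mass f N Y) ^ (1 / 2 : ℝ) := Real.rpow_nonneg hmpos.le _
    calc E ≤ mass f N Y * ((P1 - P2) + CG * ((CA + Λ) * (m + 1)) * (mass f N Y) ^ (-(1 / 2) : ℝ)) := e2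
      _ = mass f N Y * (P1 - P2) + CG * ((CA + Λ) * (m + 1)) * (mass f N Y * (mass f N Y) ^ (-(1 / 2) : ℝ)) := by ring
      _ = mass f N Y * (P1 - P2) + CG * ((CA + Λ) * (m + 1)) * (mass f N Y) ^ (1 / 2 : ℝ) := by rw [e3]
      _ ≤ mass f N Y * (P1 - P2) + CG * (B0 * (m + 1)) * (mass f N Y) ^ (1 / 2 : ℝ) := by
          have := mul_le_mul_of_nonneg_right (mul_le_mul_of_nonneg_left hBA (by linarith : 0 ≤ CG)) e4
          rw [hB] at this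
          linarith
      _ = mass f N Y * (P1 - P2) + CG * B0 * (m + 1) * (mass f N Y) ^ (1 / 2 : ℝ) := by ring
  have hfin : 4 * CL * B * s ^ α * ∑ a, W a = 4 * CL * B0 * (m + 1) * s ^ α * ∑ a, W a := by
    rw [hB]
    ring
  rw [hfin] at hsum
  linarith

end Pool.Agent.P2V
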