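import Pool.Agent.helper83.P2.SpecV
import Pool.Agent.helper48.P2.VP1

set_option autoImplicit false

/-!
# Project P2 (MP_063734_an), row `p2:VP2`: the main inequality, the limit of small scales
-/

open scoped ContDiff Topology
open MeasureTheory Filter Set Metric MvPolynomial Pool.Agent.helper37.QA Pool.Agent.P2

namespace Pool.Agent.P2V

open Pool.Agent.P2

/-- `phr δ` is an approximate identity -/
theorem VP2_lim (hVPH : VPH_stmt) (r : ℝ) (h : ℂ → ℝ) (hr : 0 < r) (hc : ContinuousOn h (ball 0 r)) :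
    Tendsto (fun δ : ℝ => ∫ v, phr δ v * h v) (𝓝[>] 0) (𝓝 (h 0)) := by
  rw [Metric.tendsto_nhdsWithin_nhds]
  intro ε hε
  obtain ⟨δ0, h0, h1⟩ := hVPH.2.2.1 r h hr hc (ε / 2) (by positivity)
  refine ⟨δ0, h0, fun {δ} hδ hd => ?_⟩
  rw [Real.dist_eq, sub_zero] at hd
  have hδ' : 0 < δ := hδ
  rw [abs_of_pos hδ'] at hd
  rw [Real.dist_eq]
  have := (h1 δ hδ' hd).2
  linarith

theorem VP2 (hKER : KER_stmt) (hRAD : RAD_stmt) (hDMS : DMS_stmt) (hVPH : VPH_stmt) (hVCJ : VCJ_stmt) (hVAD : VAD_stmt) (hVJA : VJA_stmt) (hVCP : VCP_stmt) (hVTR : VTR_stmt) (hVP1 : VP1_stmt) : VP2_stmt := by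
  intro d f U r κ Λ hd hU hr hr1 hRad hκ hκ1 hΛ
  obtain ⟨C1, α, hC1, hα, h1⟩ := hVP1 d f U r κ Λ hd hU hr hr1 hRad hκ hκ1 hΛ
  obtain ⟨CD, hCD, hD, _, _, _⟩ := hDMS d f U r hd hU hr hr1 hRad
  obtain ⟨CA, hCA, hA⟩ := hVAD d f U hd hU
  obtain ⟨CP, hCP, hP⟩ := hVCP d f U κ hd hU hκ hκ1
  obtain ⟨CJ, hCJ, hJ⟩ := hVJA d f U hd hU
  refine ⟨C1, α, hC1, hα, ?_⟩
  intro s hs hsr
  have hs1 : 16 * s ≤ 1 / 4 := by linarith
  obtain ⟨C2, hC2, h2⟩ := h1 s hs hsr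
  refine ⟨C2 + CD + 1, by linarith, ?_⟩
  intro m N Y b ι n A W hmN hY hmass hb hι hFam hW
  obtain ⟨hAv, htube⟩ := VP1_tube hVTR f U hd hU hRad hκ hs hsr hY
  have hm0 : (0 : ℝ) ≤ m := Nat.cast_nonneg m
  have hAdm := hA Λ m N hΛ hmN
  have hmass1 : C2 ≤ mass f N Y := by linarith
  have hmpos : 0 < mass f N Y := by linarith
  -- the global functional is continuous
  have hJc : ContinuousOn (fun v => Jf f N (Psf f Λ m N) (Av ι v Y)) (ball 0 (16 * s)) := by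
    obtain ⟨c1, c2, _, _⟩ := hVCJ d f U hd hU N (Psf f Λ m N) _ (16 * s) Y ι hAdm (by positivity) hY.1 (hAv ι)
    refine ContinuousOn.div c2 c1 ?_
    intro v hv
    rw [mem_ball_zero_iff] at hv
    have h3 := hD N Y (adE one3 2 ι.castSucc v) hY (VP1_near _ v (hv.trans_le hsr))
    have h4 := (abs_le.1 h3).1
    have h5 : 0 < mass f N (Av ι v Y) := by
      show 0 < mass f N (fun z => mv (adE one3 2 ι.castSucc v) (Y z))
      linarith
    exact h5.ne'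
  have hJlim : Tendsto (fun δ : ℝ => ∫ v, phr δ v * Jf f N (Psf f Λ m N) (Av ι v Y)) (𝓝[>] 0)
      (𝓝 (Jf f N (Psf f Λ m N) Y)) := by
    have := VP2_lim hVPH (16 * s) _ (by positivity) hJc
    simpa only [VP1_Av0] using this
  -- the local functionals
  have hDlim : ∀ a, Tendsto (fun δ : ℝ => ∫ v, phr δ v * Dj f Λ m N ι (A a).c κ (A a).γ v) (𝓝[>] 0)
      (𝓝 (Dj f Λ m N ι (A a).c κ (A a).γ 0)) := by
    intro a
    have hI : Is0 Y ι (A a).c κ (A a).g (A a).γ := by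
      have := (hFam.1 a).2
      rwa [hι a] at this
    have ht := htube ι (A a).c (A a).g (A a).γ hI
    obtain ⟨_, _, s3, s4, _⟩ := VP1_Dj hVPH f U hκ hκ1 hΛ hA hP hJ hs hs1 hmN ι (A a).c (A a).γ (hFam.1 a).1 hI.2.2.1 ht
    exact VP2_lim hVPH (16 * s) _ (by positivity) (s3.sub s4)
  -- the averages of the global functional are at most `b`
  have hPb : (∫ v, phr (2 * s) v * Jf f N (Psf f Λ m N) (Av ι v Y)) ≤ b := by
    obtain ⟨_, p1, p2, p3, _⟩ := hVPH.1 (2 * s) (by positivity)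
    have i1 := hVPH.2.2.2 (2 * s) (16 * s) _ (by positivity) (by linarith) hJc
    have i2 := hVPH.2.2.2 (2 * s) (16 * s) (fun _ => b) (by positivity) (by linarith) continuousOn_const
    calc (∫ v, phr (2 * s) v * Jf f N (Psf f Λ m N) (Av ι v Y)) ≤ ∫ v, phr (2 * s) v * b := by
          refine integral_mono i1 i2 fun v => ?_
          show phr (2 * s) v * Jf f N (Psf f Λ m N) (Av ι v Y) ≤ phr (2 * s) v * b
          by_cases hv : 2 * s ≤ ‖v‖
          · rw [p2 v hv, zero_mul, zero_mul]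
          · push Not at hv
            exact mul_le_mul_of_nonneg_left (hb v (by rwa [mem_ball_zero_iff])) (p1 v)
      _ = b := by rw [integral_mul_const, p3, one_mul]
  -- the limit
  set M : ℝ := mass f N Y with hM
  set P1 : ℝ := ∫ v, phr (2 * s) v * Jf f N (Psf f Λ m N) (Av ι v Y) with hP1
  have hlim : Tendsto (fun δ : ℝ => (∑ a, W a * (∫ v, phr δ v * Dj f Λ m N ι (A a).c κ (A a).γ v)) +
        M * (P1 - (∫ v, phr δ v * Jf f N (Psf f Λ m N) (Av ι v Y))) +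
        C1 * (m + 1) * s ^ α * (∑ a, W a) + C2 * (m + 1) * M ^ (1 / 2 : ℝ)) (𝓝[>] 0)
      (𝓝 ((∑ a, W a * Dj f Λ m N ι (A a).c κ (A a).γ 0) + M * (P1 - Jf f N (Psf f Λ m N) Y) +
        C1 * (m + 1) * s ^ α * (∑ a, W a) + C2 * (m + 1) * M ^ (1 / 2 : ℝ))) := by
    refine Tendsto.add_const _ (Tendsto.add_const _ (Tendsto.add ?_ ?_))
    · exact tendsto_finsetSum _ fun a _ => (hDlim a).const_mul _
    · exact (hJlim.const_sub P1).const_mul M
  have hge := ge_of_tendsto hlim (b := ∑ a, W a * (∫ v, phr (2 * s) v * Dj f Λ m N ι (A a).c κ (A a).γ v)) (by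
    have hev : ∀ᶠ δ : ℝ in 𝓝[>] 0, δ ∈ Ioc (0 : ℝ) (s / 4) := Ioc_mem_nhdsGT (by positivity)
    filter_upwards [hev] with δ hδ
    obtain ⟨K, k1, k2, k3, k4, k5, k6, _⟩ := hKER (2 * s) δ (by positivity) hδ.1 (by linarith [hδ.2])
    exact h2 m N Y ι n A W δ K hmN hY hmass1 hι hFam hW hδ.1 hδ.2 ⟨k1, k2, k3, k4, k5, k6⟩)
  have f1 : M * (P1 - Jf f N (Psf f Λ m N) Y) ≤ M * (b - Jf f N (Psf f Λ m N) Y) :=
    mul_le_mul_of_nonneg_left (by linarith) hmpos.le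
  have f2 : C2 * (m + 1) * M ^ (1 / 2 : ℝ) ≤ (C2 + CD + 1) * (m + 1) * M ^ (1 / 2 : ℝ) := by
    have := Real.rpow_nonneg hmpos.le (1 / 2 : ℝ)
    refine mul_le_mul_of_nonneg_right (mul_le_mul_of_nonneg_right (by linarith) (by positivity)) this
  linarith

end Pool.Agent.P2V
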